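import Mathlib

/-!
Tolerance representations with free segments (loads), and the gluing lemma.
-/

open Filter Finset

namespace Pool.Agent.R231.TG

/-- Symmetric, positive, Archimedean functions of two positive reals. -/
structure Arch (φ : ℝ → ℝ → ℝ) : Prop where
  symm : ∀ x y, 0 < x → 0 < y → φ x y = φ y x
  pos : ∀ x y, 0 < x → 0 < y → 0 < φ x y
  left : ∀ c, 0 < c → Tendsto (fun x => φ x c) atTop atTop
  right : ∀ c, 0 < c → Tendsto (fun x => φ c x) atTop atTop

/-- length of the intersection of `[a,b]` and `[c,d]`. -/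
noncomputable def ov (a b c d : ℝ) : ℝ := max 0 (min b d - max a c)

lemma ov_comm (a b c d : ℝ) : ov a b c d = ov c d a b := by
  unfold ov; rw [min_comm, max_comm a c]

lemma ov_nonneg (a b c d : ℝ) : 0 ≤ ov a b c d := le_max_left _ _

lemma ov_shift (a b c d e : ℝ) : ov (a + e) (b + e) (c + e) (d + e) = ov a b c d := by
  unfold ov
  rw [min_add_add_right, max_add_add_right]
  congr 1; ring

lemma ov_mono {a b a' b' c d c' d' : ℝ} (h1 : a ≤ a') (h2 : b' ≤ b) (h3 : c ≤ c') (h4 : d' ≤ d) :
    ov a' b' c' d' ≤ ov a b c d := by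
  unfold ov
  apply max_le_max le_rfl
  have := min_le_min h2 h4
  have := max_le_max h1 h3
  linarith

lemma ov_nest {a b c d : ℝ} (h1 : a ≤ c) (h2 : c ≤ d) (h3 : d ≤ b) : ov a b c d = d - c := by
  unfold ov
  rw [min_eq_right h3, max_eq_right h1, max_eq_right (by linarith)]

lemma ov_le {a b c d : ℝ} (h : c ≤ d) : ov a b c d ≤ d - c := by
  unfold ov
  apply max_le (by linarith)
  have := min_le_right b d
  have := le_max_right a c
  linarith

lemma ov_zero {a b c d : ℝ} (h : b ≤ c) : ov a b c d = 0 := by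
  unfold ov
  apply max_eq_left
  have := min_le_left b d
  have := le_max_right a c
  linarith

lemma ov_zero' {a b c d : ℝ} (h : d ≤ a) : ov a b c d = 0 := by
  rw [ov_comm]; exact ov_zero h

lemma ov_zero_mono {a b a' b' c d c' d' : ℝ} (h1 : a ≤ a') (h2 : b' ≤ b) (h3 : c ≤ c')
    (h4 : d' ≤ d) (h : ov a b c d = 0) : ov a' b' c' d' = 0 :=
  le_antisymm (h ▸ ov_mono h1 h2 h3 h4) (ov_nonneg _ _ _ _)

/-- What has to be placed later inside the interval of a vertex: a threshold for the tolerance,
and, as functions of the tolerance, the width needed and the list of pairs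
(length, tolerance) of the intervals that will be placed. -/
structure Load where
  s : ℝ
  W : ℝ → ℝ
  F : ℝ → List (ℝ × ℝ)

/-- A representation on `S` with root `v` of tolerance `s`, with room for the loads. -/
structure RR {V : Type*} (φ : ℝ → ℝ → ℝ) (A : V → V → Prop) (S : Finset V) (ld : V → Load)
    (v : V) (s : ℝ) (L R t a b : V → ℝ) : Prop where
  le : ∀ x ∈ S, L x ≤ R x
  tpos : ∀ x ∈ S, 0 < t x
  adj : ∀ x ∈ S, ∀ y ∈ S, x ≠ y → (A x y ↔ φ (t x) (t y) ≤ ov (L x) (R x) (L y) (R y))
  root : t v = s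
  cov : ∀ x ∈ S, L v ≤ L x ∧ R x ≤ R v
  thr : ∀ x ∈ S, (ld x).s ≤ t x
  seg : ∀ x ∈ S, L x ≤ a x ∧ a x ≤ b x ∧ b x ≤ R x
  wid : ∀ x ∈ S, (ld x).W (t x) ≤ b x - a x
  nul : ∀ x ∈ S, ∀ y ∈ S, x ≠ y → ov (a x) (b x) (a y) (b y) = 0
  fre : ∀ x ∈ S, ∀ y ∈ S, x ≠ y →
    ov (a x) (b x) (L y) (R y) = 0 ∨ ∀ p ∈ (ld x).F (t x), p.1 < φ (t y) p.2

/-- Strong umbrella property. -/
def SU {V : Type*} (A : V → V → Prop) (S : Finset V) (v : V) : Prop :=
  ∀ φ, Arch φ → ∀ ld : V → Load, (∀ x τ, (ld x).s ≤ τ → ∀ p ∈ (ld x).F τ, 0 < p.2) →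
    ∀ᶠ s in atTop, ∃ L R t a b : V → ℝ, RR φ A S ld v s L R t a b

theorem SU_transport {V V' : Type*} {A : V → V → Prop} {A' : V' → V' → Prop} {S : Finset V}
    {S' : Finset V'} (f : V → V') (g : V' → V) (hf : ∀ x ∈ S, f x ∈ S')
    (hg : ∀ x ∈ S, g (f x) = x) (hA : ∀ x ∈ S, ∀ y ∈ S, (A x y ↔ A' (f x) (f y)))
    {v : V} (h : SU A' S' (f v)) : SU A S v := by
  intro φ hφ ld hld
  have h' := h φ hφ (fun p => ld (g p)) (fun x τ h1 p hp => hld (g x) τ h1 p hp)
  filter_upwards [h'] with s hs
  obtain ⟨L, R, t, a, b, H⟩ := hs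
  have hne : ∀ x ∈ S, ∀ y ∈ S, x ≠ y → f x ≠ f y := by
    intro x hx y hy hxy e
    apply hxy
    rw [← hg x hx, ← hg y hy, e]
  refine ⟨L ∘ f, R ∘ f, t ∘ f, a ∘ f, b ∘ f, ?_, ?_, ?_, ?_, ?_, ?_, ?_, ?_, ?_, ?_⟩
  · intro x hx; exact H.le _ (hf x hx)
  · intro x hx; exact H.tpos _ (hf x hx)
  · intro x hx y hy hxy
    rw [hA x hx y hy]
    exact H.adj _ (hf x hx) _ (hf y hy) (hne x hx y hy hxy)
  · exact H.root
  · intro x hx; exact H.cov _ (hf x hx)
  · intro x hx
    have := H.thr _ (hf x hx)
    simp only [hg x hx] at this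
    exact this
  · intro x hx; exact H.seg _ (hf x hx)
  · intro x hx
    have := H.wid _ (hf x hx)
    simp only [hg x hx] at this
    exact this
  · intro x hx y hy hxy
    exact H.nul _ (hf x hx) _ (hf y hy) (hne x hx y hy hxy)
  · intro x hx y hy hxy
    have := H.fre _ (hf x hx) _ (hf y hy) (hne x hx y hy hxy)
    simp only [hg x hx] at this
    exact this

theorem glue {V : Type*} [DecidableEq V] {A : V → V → Prop} (hsym : ∀ x y, A x y → A y x)
    {S1 S2 : Finset V} {v w : V} (hv : v ∈ S1) (hw1 : w ∈ S1) (hw2 : w ∈ S2)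
    (hint : ∀ x ∈ S1, x ∈ S2 → x = w)
    (hno : ∀ x ∈ S1, ∀ y ∈ S2, x ≠ w → y ≠ w → ¬ A x y)
    (h1 : SU A S1 v) (h2 : SU A S2 w) : SU A (S1 ∪ S2) v := by
  classical
  intro φ hφ ld hld
  obtain ⟨s2, hs2⟩ := eventually_atTop.1 (h2 φ hφ ld hld)
  choose! L2 R2 t2 a2 b2 H2 using hs2
  set ld' : V → Load := fun x => if x = w then
      ⟨max (ld w).s s2, fun τ => max 0 ((ld w).W τ) + (R2 τ w - L2 τ w),
        fun τ => (ld w).F τ ++ (S2.erase w).toList.flatMap
          (fun x => (R2 τ x - L2 τ x, t2 τ x) :: (ld x).F (t2 τ x))⟩ else ld x with hld'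
  have ldw : ld' w = ⟨max (ld w).s s2, fun τ => max 0 ((ld w).W τ) + (R2 τ w - L2 τ w),
        fun τ => (ld w).F τ ++ (S2.erase w).toList.flatMap
          (fun x => (R2 τ x - L2 τ x, t2 τ x) :: (ld x).F (t2 τ x))⟩ := by
    simp [hld']
  have ldn : ∀ x, x ≠ w → ld' x = ld x := by
    intro x hx; simp [hld', hx]
  have hmem : ∀ τ p, p ∈ (ld' w).F τ ↔ (p ∈ (ld w).F τ ∨ ∃ x ∈ S2, x ≠ w ∧
      (p = (R2 τ x - L2 τ x, t2 τ x) ∨ p ∈ (ld x).F (t2 τ x))) := by
    intro τ p
    rw [ldw]
    simp only [List.mem_append, List.mem_flatMap, Finset.mem_toList, Finset.mem_erase,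
      List.mem_cons]
    constructor
    · rintro (h | ⟨x, ⟨h3, h4⟩, h5⟩)
      · exact Or.inl h
      · exact Or.inr ⟨x, h4, h3, h5⟩
    · rintro (h | ⟨x, h3, h4, h5⟩)
      · exact Or.inl h
      · exact Or.inr ⟨x, ⟨h4, h3⟩, h5⟩
  have hval : ∀ x τ, (ld' x).s ≤ τ → ∀ p ∈ (ld' x).F τ, 0 < p.2 := by
    intro x τ h3 p hp
    by_cases hx : x = w
    · subst hx
      rw [hmem] at hp
      have h4 : max (ld x).s s2 ≤ τ := by rw [ldw] at h3; exact h3
      have h5 : (ld x).s ≤ τ := le_trans (le_max_left _ _) h4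
      have h6 : s2 ≤ τ := le_trans (le_max_right _ _) h4
      rcases hp with hp | ⟨y, hy, hyx, rfl | hp⟩
      · exact hld x τ h5 p hp
      · exact (H2 τ h6).tpos y hy
      · exact hld y _ ((H2 τ h6).thr y hy) p hp
    · rw [ldn x hx] at h3 hp
      exact hld x τ h3 p hp
  filter_upwards [h1 φ hφ ld' hval] with s hs
  obtain ⟨L1, R1, t1, a1, b1, H1⟩ := hs
  set τ := t1 w with hτ
  have hthr : max (ld w).s s2 ≤ τ := by
    have := H1.thr w hw1
    rw [ldw] at this
    exact this
  have hs2τ : s2 ≤ τ := le_trans (le_max_right _ _) hthr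
  have K := H2 τ hs2τ
  clear_value τ
  set M2 := R2 τ w - L2 τ w with hM2
  have hM2n : 0 ≤ M2 := by have := K.le w hw2; rw [hM2]; linarith
  have hwid : max 0 ((ld w).W τ) + M2 ≤ b1 w - a1 w := by
    have := H1.wid w hw1
    rw [ldw] at this
    simp only [← hτ] at this
    exact this
  set c := b1 w - R2 τ w with hc
  -- position of the second part
  have hpos : ∀ x ∈ S2, b1 w - M2 ≤ L2 τ x + c ∧ R2 τ x + c ≤ b1 w := by
    intro x hx
    obtain ⟨h3, h4⟩ := K.cov x hx
    constructor
    · rw [hM2, hc]; linarith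
    · rw [hc]; linarith
  have hpos' : ∀ x ∈ S2, a1 w ≤ L2 τ x + c := by
    intro x hx
    have := (hpos x hx).1
    have h0 : (0 : ℝ) ≤ max 0 ((ld w).W τ) := le_max_left _ _
    linarith
  have hseg1 := H1.seg w hw1
  have hM2w : a1 w ≤ b1 w - M2 := by
    have h0 : (0 : ℝ) ≤ max 0 ((ld w).W τ) := le_max_left _ _
    linarith
  -- merged data
  set L : V → ℝ := fun x => if x ∈ S1 then L1 x else L2 τ x + c with hL
  set R : V → ℝ := fun x => if x ∈ S1 then R1 x else R2 τ x + c with hR
  set t : V → ℝ := fun x => if x ∈ S1 then t1 x else t2 τ x with ht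
  set a : V → ℝ := fun x => if x ∈ S1 then a1 x else a2 τ x + c with ha
  set b : V → ℝ := fun x => if x = w then b1 w - M2 else if x ∈ S1 then b1 x else b2 τ x + c
    with hb
  have L_1 : ∀ x ∈ S1, L x = L1 x := fun x hx => by simp [hL, hx]
  have R_1 : ∀ x ∈ S1, R x = R1 x := fun x hx => by simp [hR, hx]
  have t_1 : ∀ x ∈ S1, t x = t1 x := fun x hx => by simp [ht, hx]
  have a_1 : ∀ x ∈ S1, a x = a1 x := fun x hx => by simp [ha, hx]
  have b_1 : ∀ x ∈ S1, x ≠ w → b x = b1 x := fun x hx hn => by simp [hb, hx, hn]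
  have b_w : b w = b1 w - M2 := by simp [hb]
  have L_2 : ∀ x, x ∉ S1 → L x = L2 τ x + c := fun x hx => by simp [hL, hx]
  have R_2 : ∀ x, x ∉ S1 → R x = R2 τ x + c := fun x hx => by simp [hR, hx]
  have t_2 : ∀ x, x ∉ S1 → t x = t2 τ x := fun x hx => by simp [ht, hx]
  have a_2 : ∀ x, x ∉ S1 → a x = a2 τ x + c := fun x hx => by simp [ha, hx]
  have b_2 : ∀ x, x ∉ S1 → b x = b2 τ x + c := fun x hx => by
    have : x ≠ w := fun h => hx (h ▸ hw1)
    simp [hb, hx, this]
  have b_le : ∀ x ∈ S1, b x ≤ b1 x := by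
    intro x hx
    by_cases h : x = w
    · subst h; rw [b_w]; linarith
    · rw [b_1 x hx h]
  clear_value L R t a b c M2
  have t2w : t2 τ w = τ := K.root
  -- half of the adjacency statement
  have half : ∀ x ∈ S1, ∀ y ∈ S2, y ∉ S1 →
      (A x y ↔ φ (t x) (t y) ≤ ov (L x) (R x) (L y) (R y)) := by
    intro x hx y hy hy1
    have hyw : y ≠ w := fun h => hy1 (h ▸ hw1)
    have hyle := K.le y hy
    obtain ⟨hp1, hp2⟩ := hpos y hy
    have hp3 := hpos' y hy
    rw [L_2 y hy1, R_2 y hy1, t_2 y hy1, L_1 x hx, R_1 x hx, t_1 x hx]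
    by_cases hxw : x = w
    · subst hxw
      rw [K.adj x hw2 y hy (Ne.symm hyw), t2w, ← hτ,
        ov_nest (K.cov y hy).1 hyle (K.cov y hy).2,
        ov_nest (by linarith) (by linarith) (by linarith)]
      have : R2 τ y + c - (L2 τ y + c) = R2 τ y - L2 τ y := by ring
      rw [this]
    · constructor
      · intro h; exact absurd h (hno x hx y hy hxw hyw)
      · intro h
        exfalso
        have hpp : 0 < φ (t1 x) (t2 τ y) := hφ.pos _ _ (H1.tpos x hx) (K.tpos y hy)
        rcases H1.fre w hw1 x hx (Ne.symm hxw) with h3 | h3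
        · have : ov (L1 x) (R1 x) (L2 τ y + c) (R2 τ y + c) = 0 := by
            rw [ov_comm]
            exact ov_zero_mono hp3 hp2 le_rfl le_rfl h3
          linarith
        · have h4 := h3 (R2 τ y - L2 τ y, t2 τ y) (by
            rw [← hτ, hmem]
            exact Or.inr ⟨y, hy, hyw, Or.inl rfl⟩)
          simp only at h4
          have h5 : ov (L1 x) (R1 x) (L2 τ y + c) (R2 τ y + c) ≤ R2 τ y + c - (L2 τ y + c) :=
            ov_le (by linarith)
          linarith
  refine ⟨L, R, t, a, b, ?_, ?_, ?_, ?_, ?_, ?_, ?_, ?_, ?_, ?_⟩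
  · intro x hx
    by_cases hx1 : x ∈ S1
    · rw [L_1 x hx1, R_1 x hx1]; exact H1.le x hx1
    · have hx2 : x ∈ S2 := by
        rcases Finset.mem_union.1 hx with h | h
        · exact absurd h hx1
        · exact h
      rw [L_2 x hx1, R_2 x hx1]
      have := K.le x hx2
      linarith
  · intro x hx
    by_cases hx1 : x ∈ S1
    · rw [t_1 x hx1]; exact H1.tpos x hx1
    · have hx2 : x ∈ S2 := by
        rcases Finset.mem_union.1 hx with h | h
        · exact absurd h hx1
        · exact h
      rw [t_2 x hx1]; exact K.tpos x hx2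
  · intro x hx y hy hxy
    by_cases hx1 : x ∈ S1
    · by_cases hy1 : y ∈ S1
      · rw [L_1 x hx1, R_1 x hx1, t_1 x hx1, L_1 y hy1, R_1 y hy1, t_1 y hy1]
        exact H1.adj x hx1 y hy1 hxy
      · have hy2 : y ∈ S2 := by
          rcases Finset.mem_union.1 hy with h | h
          · exact absurd h hy1
          · exact h
        exact half x hx1 y hy2 hy1
    · have hx2 : x ∈ S2 := by
        rcases Finset.mem_union.1 hx with h | h
        · exact absurd h hx1
        · exact h
      by_cases hy1 : y ∈ S1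
      · have h3 := half y hy1 x hx2 hx1
        have ty : 0 < t y := by rw [t_1 y hy1]; exact H1.tpos y hy1
        have tx : 0 < t x := by rw [t_2 x hx1]; exact K.tpos x hx2
        rw [hφ.symm _ _ tx ty, ov_comm, ← h3]
        exact ⟨fun h => hsym _ _ h, fun h => hsym _ _ h⟩
      · have hy2 : y ∈ S2 := by
          rcases Finset.mem_union.1 hy with h | h
          · exact absurd h hy1
          · exact h
        rw [L_2 x hx1, R_2 x hx1, t_2 x hx1, L_2 y hy1, R_2 y hy1, t_2 y hy1, ov_shift]
        exact K.adj x hx2 y hy2 hxy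
  · rw [t_1 v hv]; exact H1.root
  · intro x hx
    rw [L_1 v hv, R_1 v hv]
    by_cases hx1 : x ∈ S1
    · rw [L_1 x hx1, R_1 x hx1]; exact H1.cov x hx1
    · have hx2 : x ∈ S2 := by
        rcases Finset.mem_union.1 hx with h | h
        · exact absurd h hx1
        · exact h
      rw [L_2 x hx1, R_2 x hx1]
      have h3 := hpos' x hx2
      have h4 := (hpos x hx2).2
      have h5 := H1.cov w hw1
      constructor <;> linarith [h5.1, h5.2]
  · intro x hx
    by_cases hx1 : x ∈ S1
    · rw [t_1 x hx1]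
      by_cases hxw : x = w
      · subst hxw
        rw [← hτ]
        exact le_trans (le_max_left _ _) hthr
      · have := H1.thr x hx1
        rw [ldn x hxw] at this
        exact this
    · have hx2 : x ∈ S2 := by
        rcases Finset.mem_union.1 hx with h | h
        · exact absurd h hx1
        · exact h
      rw [t_2 x hx1]; exact K.thr x hx2
  · intro x hx
    by_cases hx1 : x ∈ S1
    · rw [L_1 x hx1, R_1 x hx1, a_1 x hx1]
      by_cases hxw : x = w
      · subst hxw
        rw [b_w]
        refine ⟨hseg1.1, hM2w, by linarith [hseg1.2.2]⟩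
      · rw [b_1 x hx1 hxw]
        exact H1.seg x hx1
    · have hx2 : x ∈ S2 := by
        rcases Finset.mem_union.1 hx with h | h
        · exact absurd h hx1
        · exact h
      rw [L_2 x hx1, R_2 x hx1, a_2 x hx1, b_2 x hx1]
      have := K.seg x hx2
      refine ⟨by linarith [this.1], by linarith [this.2.1], by linarith [this.2.2]⟩
  · intro x hx
    by_cases hx1 : x ∈ S1
    · rw [a_1 x hx1, t_1 x hx1]
      by_cases hxw : x = w
      · subst hxw
        rw [b_w, ← hτ]
        have : (ld x).W τ ≤ max 0 ((ld x).W τ) := le_max_right _ _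
        linarith
      · rw [b_1 x hx1 hxw]
        have := H1.wid x hx1
        rw [ldn x hxw] at this
        exact this
    · have hx2 : x ∈ S2 := by
        rcases Finset.mem_union.1 hx with h | h
        · exact absurd h hx1
        · exact h
      rw [a_2 x hx1, b_2 x hx1, t_2 x hx1]
      have := K.wid x hx2
      linarith
  · have hmix : ∀ x ∈ S1, ∀ y ∈ S2, y ∉ S1 → ov (a x) (b x) (a y) (b y) = 0 := by
      intro x hx y hy hy1
      rw [a_2 y hy1, b_2 y hy1, a_1 x hx]
      have hys := K.seg y hy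
      obtain ⟨hp1, hp2⟩ := hpos y hy
      have hp3 := hpos' y hy
      by_cases hxw : x = w
      · subst hxw
        rw [b_w]
        apply ov_zero
        linarith [hys.1]
      · rw [b_1 x hx hxw]
        have h3 := H1.nul x hx w hw1 hxw
        exact ov_zero_mono le_rfl le_rfl (by linarith [hys.1]) (by linarith [hys.2.2]) h3
    intro x hx y hy hxy
    by_cases hx1 : x ∈ S1
    · by_cases hy1 : y ∈ S1
      · have h3 := H1.nul x hx1 y hy1 hxy
        rw [a_1 x hx1, a_1 y hy1]
        exact ov_zero_mono le_rfl (b_le x hx1) le_rfl (b_le y hy1) h3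
      · have hy2 : y ∈ S2 := by
          rcases Finset.mem_union.1 hy with h | h
          · exact absurd h hy1
          · exact h
        exact hmix x hx1 y hy2 hy1
    · have hx2 : x ∈ S2 := by
        rcases Finset.mem_union.1 hx with h | h
        · exact absurd h hx1
        · exact h
      by_cases hy1 : y ∈ S1
      · rw [ov_comm]; exact hmix y hy1 x hx2 hx1
      · have hy2 : y ∈ S2 := by
          rcases Finset.mem_union.1 hy with h | h
          · exact absurd h hy1
          · exact h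
        rw [a_2 x hx1, b_2 x hx1, a_2 y hy1, b_2 y hy1, ov_shift]
        exact K.nul x hx2 y hy2 hxy
  · intro x hx y hy hxy
    by_cases hx1 : x ∈ S1
    · rw [t_1 x hx1, a_1 x hx1]
      by_cases hy1 : y ∈ S1
      · rw [L_1 y hy1, R_1 y hy1, t_1 y hy1]
        rcases H1.fre x hx1 y hy1 hxy with h3 | h3
        · left
          exact ov_zero_mono le_rfl (b_le x hx1) le_rfl le_rfl h3
        · right
          by_cases hxw : x = w
          · subst hxw
            intro p hp
            apply h3 p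
            rw [hmem]
            exact Or.inl hp
          · rw [ldn x hxw] at h3
            exact h3
      · have hy2 : y ∈ S2 := by
          rcases Finset.mem_union.1 hy with h | h
          · exact absurd h hy1
          · exact h
        left
        rw [L_2 y hy1, R_2 y hy1]
        obtain ⟨hp1, hp2⟩ := hpos y hy2
        have hp3 := hpos' y hy2
        by_cases hxw : x = w
        · subst hxw
          rw [b_w]
          exact ov_zero hp1
        · rw [b_1 x hx1 hxw]
          have h3 := H1.nul x hx1 w hw1 hxw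
          exact ov_zero_mono le_rfl le_rfl hp3 hp2 h3
    · have hx2 : x ∈ S2 := by
        rcases Finset.mem_union.1 hx with h | h
        · exact absurd h hx1
        · exact h
      rw [a_2 x hx1, b_2 x hx1, t_2 x hx1]
      have hxs := K.seg x hx2
      obtain ⟨hp1, hp2⟩ := hpos x hx2
      have hp3 := hpos' x hx2
      have hxw : x ≠ w := fun h => hx1 (h ▸ hw1)
      by_cases hy1 : y ∈ S1
      · rw [L_1 y hy1, R_1 y hy1, t_1 y hy1]
        by_cases hyw : y = w
        · subst hyw
          rcases K.fre x hx2 y hw2 hxy with h3 | h3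
          · left
            have h4 := K.cov x hx2
            rw [ov_comm, ov_nest (by linarith [hxs.1, h4.1]) hxs.2.1
              (by linarith [hxs.2.2, h4.2])] at h3
            rw [ov_comm, ov_nest (by linarith [hxs.1]) (by linarith [hxs.2.1])
              (by linarith [hxs.2.2])]
            linarith
          · right
            rw [t2w] at h3
            rw [← hτ]
            exact h3
        · rcases H1.fre w hw1 y hy1 (Ne.symm hyw) with h3 | h3
          · left
            exact ov_zero_mono (by linarith [hxs.1]) (by linarith [hxs.2.2]) le_rfl le_rfl h3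
          · right
            intro p hp
            apply h3 p
            rw [← hτ, hmem]
            exact Or.inr ⟨x, hx2, hxw, Or.inr hp⟩
      · have hy2 : y ∈ S2 := by
          rcases Finset.mem_union.1 hy with h | h
          · exact absurd h hy1
          · exact h
        rw [L_2 y hy1, R_2 y hy1, t_2 y hy1, ov_shift]
        exact K.fre x hx2 y hy2 hxy

end Pool.Agent.R231.TG
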