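import Pool.Agent.R231.TG.Basic

/-!
Connectivity by cuts, blocks of a finite vertex set, and the decomposition at a cut vertex.
-/

open Filter Finset

namespace Pool.Agent.R231.TG

variable {V : Type*} [DecidableEq V]

/-- connectedness (of a possibly empty set) in terms of cuts. -/
def Cn (A : V → V → Prop) (S : Finset V) : Prop :=
  ∀ T ⊆ S, T.Nonempty → T ≠ S → ∃ x ∈ T, ∃ y ∈ S, y ∉ T ∧ A x y

def NS (A : V → V → Prop) (S : Finset V) : Prop :=
  S.Nonempty ∧ Cn A S ∧ ∀ x ∈ S, Cn A (S.erase x)

def Blk (A : V → V → Prop) (S B : Finset V) : Prop :=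
  B ⊆ S ∧ NS A B ∧ ∀ B' ⊆ S, B ⊆ B' → NS A B' → B' = B

lemma NS_pair {A : V → V → Prop} (hsym : ∀ x y, A x y → A y x) {x y : V} (h : A x y) :
    NS A {x, y} := by
  refine ⟨⟨x, by simp⟩, ?_, ?_⟩
  · intro T hT hne hTS
    by_cases hx : x ∈ T
    · have hy : y ∉ T := by
        intro hy
        apply hTS
        apply Finset.Subset.antisymm hT
        intro z hz
        rcases Finset.mem_insert.1 hz with rfl | hz
        · exact hx
        · rw [Finset.mem_singleton.1 hz]; exact hy
      exact ⟨x, hx, y, by simp, hy, h⟩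
    · have hy : y ∈ T := by
        obtain ⟨z, hz⟩ := hne
        rcases Finset.mem_insert.1 (hT hz) with rfl | hz'
        · exact absurd hz hx
        · rw [Finset.mem_singleton.1 hz'] at hz; exact hz
      exact ⟨y, hy, x, by simp, hx, hsym _ _ h⟩
  · intro z hz T hT hne hTS
    exfalso
    apply hTS
    apply Finset.Subset.antisymm hT
    obtain ⟨u, hu⟩ := hne
    intro q hq
    have h1 := hT hu
    simp only [Finset.mem_erase, Finset.mem_insert, Finset.mem_singleton] at h1 hq hz
    have : q = u := by
      rcases hz with rfl | rfl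
      · rcases h1 with ⟨h2, h3 | h3⟩
        · exact absurd h3 h2
        · rcases hq with ⟨h4, h5 | h5⟩
          · exact absurd h5 h4
          · rw [h3, h5]
      · rcases h1 with ⟨h2, h3 | h3⟩
        · rcases hq with ⟨h4, h5 | h5⟩
          · rw [h3, h5]
          · exact absurd h5 h4
        · exact absurd h3 h2
    rw [this]; exact hu

/-- The situation at a cut vertex `w` of `S = insert w (P ∪ Q)`. -/
structure Cut (A : V → V → Prop) (S P Q : Finset V) (w : V) : Prop where
  eq : S = insert w (P ∪ Q)
  wP : w ∉ P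
  wQ : w ∉ Q
  dis : Disjoint P Q
  nP : P.Nonempty
  nQ : Q.Nonempty
  no : ∀ x ∈ P, ∀ y ∈ Q, ¬ A x y

lemma Cut.swap {A : V → V → Prop} (hsym : ∀ x y, A x y → A y x) {S P Q : Finset V} {w : V}
    (h : Cut A S P Q w) : Cut A S Q P w :=
  ⟨by rw [h.eq, Finset.union_comm], h.wQ, h.wP, h.dis.symm, h.nQ, h.nP,
    fun x hx y hy e => h.no y hy x hx (hsym _ _ e)⟩

lemma Cut.conn {A : V → V → Prop} (hsym : ∀ x y, A x y → A y x) {S P Q : Finset V} {w : V}
    (h : Cut A S P Q w) (hS : Cn A S) : Cn A (insert w P) := by
  have key : ∀ T ⊆ P, T.Nonempty → ∃ x ∈ T, ∃ y ∈ insert w P, y ∉ T ∧ A x y := by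
    intro T hT hne
    have h1 : T ⊆ S := by
      intro z hz
      rw [h.eq]
      exact Finset.mem_insert_of_mem (Finset.mem_union_left _ (hT hz))
    have h2 : T ≠ S := by
      intro e
      have : w ∈ S := by rw [h.eq]; exact Finset.mem_insert_self _ _
      rw [← e] at this
      exact h.wP (hT this)
    obtain ⟨x, hx, y, hy, hyT, e⟩ := hS T h1 hne h2
    refine ⟨x, hx, y, ?_, hyT, e⟩
    rw [h.eq] at hy
    rcases Finset.mem_insert.1 hy with rfl | hy
    · exact Finset.mem_insert_self _ _
    · rcases Finset.mem_union.1 hy with hy | hy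
      · exact Finset.mem_insert_of_mem hy
      · exact absurd e (h.no x (hT hx) y hy)
  intro T hT hne hTS
  by_cases hw : w ∈ T
  · have h1 : (insert w P \ T) ⊆ P := by
      intro z hz
      rw [Finset.mem_sdiff] at hz
      rcases Finset.mem_insert.1 hz.1 with rfl | h2
      · exact absurd hw hz.2
      · exact h2
    have h2 : (insert w P \ T).Nonempty := by
      rw [Finset.sdiff_nonempty]
      intro h3
      exact hTS (Finset.Subset.antisymm hT h3)
    obtain ⟨x, hx, y, hy, hyT, e⟩ := key _ h1 h2
    have hy' : y ∈ T := by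
      by_contra h3
      exact hyT (Finset.mem_sdiff.2 ⟨hy, h3⟩)
    rw [Finset.mem_sdiff] at hx
    exact ⟨y, hy', x, hx.1, hx.2, hsym _ _ e⟩
  · have h1 : T ⊆ P := by
      intro z hz
      rcases Finset.mem_insert.1 (hT hz) with rfl | h2
      · exact absurd hz hw
      · exact h2
    exact key T h1 hne

lemma Cut.blk {A : V → V → Prop} (hsym : ∀ x y, A x y → A y x) {S P Q : Finset V} {w : V}
    (h : Cut A S P Q w) (hS : Cn A S) {C : Finset V} (hC : Blk A (insert w P) C) : Blk A S C := by
  obtain ⟨hC1, hC2, hC3⟩ := hC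
  have hsub : insert w P ⊆ S := by
    rw [h.eq]
    apply Finset.insert_subset_insert
    exact Finset.subset_union_left
  refine ⟨hC1.trans hsub, hC2, ?_⟩
  intro C' hC' hCC' hN
  by_cases hsubC : C' ⊆ insert w P
  · exact hC3 C' hsubC hCC' hN
  exfalso
  obtain ⟨q, hq, hqn⟩ := Finset.not_subset.1 hsubC
  have hqQ : q ∈ Q := by
    have h1 := hC' hq
    rw [h.eq] at h1
    simp only [Finset.mem_insert, Finset.mem_union] at h1 hqn
    push Not at hqn
    rcases h1 with h1 | h1 | h1
    · exact absurd h1 hqn.1
    · exact absurd h1 hqn.2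
    · exact h1
  by_cases hP : (C' ∩ P).Nonempty
  · have hconn : Cn A (C'.erase w) := by
      by_cases hw : w ∈ C'
      · exact hN.2.2 w hw
      · rw [Finset.erase_eq_of_notMem hw]; exact hN.2.1
    have h1 : C' ∩ P ⊆ C'.erase w := by
      intro z hz
      rw [Finset.mem_inter] at hz
      rw [Finset.mem_erase]
      exact ⟨fun e => h.wP (e ▸ hz.2), hz.1⟩
    have h2 : C' ∩ P ≠ C'.erase w := by
      intro e
      have h3 : q ∈ C'.erase w := Finset.mem_erase.2 ⟨fun e => h.wQ (e ▸ hqQ), hq⟩
      rw [← e, Finset.mem_inter] at h3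
      exact (Finset.disjoint_left.1 h.dis) h3.2 hqQ
    obtain ⟨x, hx, y, hy, hyn, e⟩ := hconn _ h1 hP h2
    rw [Finset.mem_inter] at hx
    rw [Finset.mem_erase] at hy
    have hyS := hC' hy.2
    rw [h.eq] at hyS
    rcases Finset.mem_insert.1 hyS with h3 | h3
    · exact hy.1 h3
    · rcases Finset.mem_union.1 h3 with h3 | h3
      · exact hyn (Finset.mem_inter.2 ⟨hy.2, h3⟩)
      · exact h.no x hx.2 y h3 e
  · have hCw : C ⊆ {w} := by
      intro z hz
      rw [Finset.mem_singleton]
      rcases Finset.mem_insert.1 (hC1 hz) with h1 | h1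
      · exact h1
      · exact absurd ⟨z, Finset.mem_inter.2 ⟨hCC' hz, h1⟩⟩ hP
    have hCw' : C = {w} := by
      apply Finset.Subset.antisymm hCw
      obtain ⟨z, hz⟩ := hC2.1
      have := Finset.mem_singleton.1 (hCw hz)
      rw [Finset.singleton_subset_iff, ← this]; exact hz
    have hconn := h.conn hsym hS
    have h3 : ({w} : Finset V) ≠ insert w P := by
      intro e
      obtain ⟨p, hp⟩ := h.nP
      have : p ∈ ({w} : Finset V) := by rw [e]; exact Finset.mem_insert_of_mem hp
      rw [Finset.mem_singleton] at this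
      exact h.wP (this ▸ hp)
    obtain ⟨x, hx, y, hy, hyn, e⟩ := hconn {w} (by simp) ⟨w, by simp⟩ h3
    rw [Finset.mem_singleton] at hx hyn
    subst hx
    have h4 := hC3 {x, y} (by
      intro z hz
      rcases Finset.mem_insert.1 hz with rfl | hz
      · exact Finset.mem_insert_self _ _
      · rw [Finset.mem_singleton.1 hz]; exact hy) (by rw [hCw']; simp) (NS_pair hsym e)
    have h5 : y ∈ C := by rw [← h4]; simp
    rw [hCw', Finset.mem_singleton] at h5
    exact hyn h5

/-- The induction on blocks: if `SU` holds for all blocks at all vertices, it holds for the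
whole connected set at all vertices. -/
theorem SU_of_blocks {A : V → V → Prop} (hsym : ∀ x y, A x y → A y x) :
    ∀ n, ∀ S : Finset V, S.card = n → Cn A S →
      (∀ B, Blk A S B → ∀ v ∈ B, SU A B v) → ∀ v ∈ S, SU A S v := by
  intro n
  induction n using Nat.strong_induction_on with
  | _ n ih =>
    intro S hn hS hB v hv
    by_cases hN : ∀ x ∈ S, Cn A (S.erase x)
    · exact hB S ⟨Finset.Subset.refl _, ⟨⟨v, hv⟩, hS, hN⟩,
        fun B' h1 h2 _ => Finset.Subset.antisymm h1 h2⟩ v hv
    push Not at hN
    obtain ⟨w, hw, hwn⟩ := hN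
    unfold Cn at hwn
    push Not at hwn
    obtain ⟨T, hT, hTn, hTS, hno⟩ := hwn
    have hcut : Cut A S T (S.erase w \ T) w := by
      refine ⟨?_, ?_, ?_, Finset.disjoint_sdiff, hTn, ?_, ?_⟩
      · rw [Finset.union_sdiff_of_subset hT, Finset.insert_erase hw]
      · intro h; exact absurd (hT h) (by simp)
      · intro h; exact absurd (Finset.mem_sdiff.1 h).1 (by simp)
      · rw [Finset.sdiff_nonempty]
        intro h; exact hTS (Finset.Subset.antisymm hT h)
      · intro x hx y hy
        rw [Finset.mem_sdiff] at hy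
        exact hno x hx y hy.1 hy.2
    -- main step for a cut with `v` in the first part
    have step : ∀ P Q : Finset V, Cut A S P Q w → v ∈ insert w P → SU A S v := by
      intro P Q hc hvP
      have hc' := hc.swap hsym
      have c1 : (insert w P).card < n := by
        rw [← hn]
        apply Finset.card_lt_card
        rw [Finset.ssubset_iff_subset_ne]
        refine ⟨?_, ?_⟩
        · rw [hc.eq]
          exact Finset.insert_subset_insert _ Finset.subset_union_left
        · intro e
          obtain ⟨q, hq⟩ := hc.nQ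
          have : q ∈ insert w P := by
            rw [e, hc.eq]; exact Finset.mem_insert_of_mem (Finset.mem_union_right _ hq)
          rcases Finset.mem_insert.1 this with h | h
          · exact hc.wQ (h ▸ hq)
          · exact (Finset.disjoint_left.1 hc.dis) h hq
      have c2 : (insert w Q).card < n := by
        rw [← hn]
        apply Finset.card_lt_card
        rw [Finset.ssubset_iff_subset_ne]
        refine ⟨?_, ?_⟩
        · rw [hc.eq]
          exact Finset.insert_subset_insert _ Finset.subset_union_right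
        · intro e
          obtain ⟨q, hq⟩ := hc.nP
          have : q ∈ insert w Q := by
            rw [e, hc.eq]; exact Finset.mem_insert_of_mem (Finset.mem_union_left _ hq)
          rcases Finset.mem_insert.1 this with h | h
          · exact hc.wP (h ▸ hq)
          · exact (Finset.disjoint_left.1 hc.dis) hq h
      have h1 := ih _ c1 (insert w P) rfl (hc.conn hsym hS)
        (fun B hB' => hB B (hc.blk hsym hS hB')) v hvP
      have h2 := ih _ c2 (insert w Q) rfl (hc'.conn hsym hS)
        (fun B hB' => hB B (hc'.blk hsym hS hB')) w (Finset.mem_insert_self _ _)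
      have h3 : S = insert w P ∪ insert w Q := by
        rw [hc.eq]
        ext z
        simp only [Finset.mem_insert, Finset.mem_union]
        tauto
      rw [h3]
      apply glue hsym hvP (Finset.mem_insert_self _ _) (Finset.mem_insert_self _ _) _ _ h1 h2
      · intro x hx hx'
        rcases Finset.mem_insert.1 hx with h | h
        · exact h
        · rcases Finset.mem_insert.1 hx' with h' | h'
          · exact h'
          · exact absurd h' ((Finset.disjoint_left.1 hc.dis) h)
      · intro x hx y hy hxw hyw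
        rcases Finset.mem_insert.1 hx with h | h
        · exact absurd h hxw
        · rcases Finset.mem_insert.1 hy with h' | h'
          · exact absurd h' hyw
          · exact hc.no x h y h'
    have hvS := hv
    rw [hcut.eq] at hvS
    rcases Finset.mem_insert.1 hvS with h | h
    · exact step _ _ hcut (by rw [h]; exact Finset.mem_insert_self _ _)
    · rcases Finset.mem_union.1 h with h | h
      · exact step _ _ hcut (Finset.mem_insert_of_mem h)
      · exact step _ _ (hcut.swap hsym) (Finset.mem_insert_of_mem h)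

/-- Plain representation on a set. -/
def Rp (φ : ℝ → ℝ → ℝ) (A : V → V → Prop) (S : Finset V) : Prop :=
  ∃ L R t : V → ℝ, (∀ x ∈ S, L x ≤ R x) ∧ (∀ x ∈ S, 0 < t x) ∧
    ∀ x ∈ S, ∀ y ∈ S, x ≠ y → (A x y ↔ φ (t x) (t y) ≤ ov (L x) (R x) (L y) (R y))

theorem Rp_of_SU {A : V → V → Prop} {S : Finset V} {v : V} (h : SU A S v) {φ : ℝ → ℝ → ℝ}
    (hφ : Arch φ) : Rp φ A S := by
  have h1 := h φ hφ (fun _ => ⟨0, fun _ => 0, fun _ => []⟩) (by simp)
  obtain ⟨s, L, R, t, a, b, H⟩ := h1.exists
  exact ⟨L, R, t, H.le, H.tpos, H.adj⟩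

theorem Rp_of_blocks {A : V → V → Prop} (hsym : ∀ x y, A x y → A y x) {φ : ℝ → ℝ → ℝ}
    (hφ : Arch φ) :
    ∀ n, ∀ S : Finset V, S.card = n → (∀ B, Blk A S B → ∀ v ∈ B, SU A B v) → Rp φ A S := by
  intro n
  induction n using Nat.strong_induction_on with
  | _ n ih =>
    intro S hn hB
    rcases S.eq_empty_or_nonempty with rfl | ⟨v, hv⟩
    · exact ⟨0, 0, 1, by simp, by simp, by simp⟩
    by_cases hS : Cn A S
    · exact Rp_of_SU (SU_of_blocks hsym n S hn hS hB v hv) hφ
    unfold Cn at hS
    push Not at hS
    obtain ⟨T, hT, hTn, hTS, hno⟩ := hS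
    have hUn : (S \ T).Nonempty := by
      rw [Finset.sdiff_nonempty]
      intro h; exact hTS (Finset.Subset.antisymm hT h)
    -- blocks of a union of components are blocks
    have hblk : ∀ P : Finset V, P ⊆ S → (∀ x ∈ P, ∀ y ∈ S, y ∉ P → ¬ A x y) →
        ∀ B, Blk A P B → Blk A S B := by
      intro P hPS hPno B hBP
      refine ⟨hBP.1.trans hPS, hBP.2.1, ?_⟩
      intro B' hB' hBB' hN
      apply hBP.2.2 B' _ hBB' hN
      by_contra hcon
      obtain ⟨q, hq, hqP⟩ := Finset.not_subset.1 hcon
      have h1 : (B' ∩ P).Nonempty := by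
        obtain ⟨z, hz⟩ := hBP.2.1.1
        exact ⟨z, Finset.mem_inter.2 ⟨hBB' hz, hBP.1 hz⟩⟩
      have h2 : B' ∩ P ≠ B' := by
        intro e
        rw [← e] at hq
        exact hqP (Finset.mem_inter.1 hq).2
      obtain ⟨x, hx, y, hy, hyn, e⟩ := hN.2.1 _ Finset.inter_subset_left h1 h2
      rw [Finset.mem_inter] at hx
      apply hPno x hx.2 y (hB' hy) _ e
      intro hyP
      exact hyn (Finset.mem_inter.2 ⟨hy, hyP⟩)
    have hno' : ∀ x ∈ S \ T, ∀ y ∈ S, y ∉ S \ T → ¬ A x y := by
      intro x hx y hy hyn e
      rw [Finset.mem_sdiff] at hx hyn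
      have hyT : y ∈ T := by
        by_contra h; exact hyn ⟨hy, h⟩
      exact hno y hyT x hx.1 hx.2 (hsym _ _ e)
    have c1 : T.card < n := by
      rw [← hn]
      exact Finset.card_lt_card (Finset.ssubset_iff_subset_ne.2 ⟨hT, hTS⟩)
    have c2 : (S \ T).card < n := by
      rw [← hn]
      apply Finset.card_lt_card
      rw [Finset.ssubset_iff_subset_ne]
      refine ⟨Finset.sdiff_subset, ?_⟩
      intro e
      obtain ⟨z, hz⟩ := hTn
      have := hT hz
      rw [← e, Finset.mem_sdiff] at this
      exact this.2 hz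
    obtain ⟨L1, R1, t1, h11, h12, h13⟩ := ih _ c1 T rfl
      (fun B hB' => hB B (hblk T hT (fun x hx y hy hyn => hno x hx y hy hyn) B hB'))
    obtain ⟨L2, R2, t2, h21, h22, h23⟩ := ih _ c2 (S \ T) rfl
      (fun B hB' => hB B (hblk _ Finset.sdiff_subset hno' B hB'))
    obtain ⟨c, hc⟩ : ∃ c : ℝ, ∀ x ∈ T, ∀ y ∈ S \ T, R1 x ≤ L2 y + c := by
      have : ∀ᶠ c : ℝ in atTop, ∀ x ∈ T, ∀ y ∈ S \ T, R1 x - L2 y ≤ c := by
        rw [Filter.eventually_all_finset]
        intro x _
        rw [Filter.eventually_all_finset]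
        intro y _
        exact eventually_ge_atTop _
      obtain ⟨c, hc⟩ := this.exists
      exact ⟨c, fun x hx y hy => by linarith [hc x hx y hy]⟩
    have hUS : ∀ y ∈ S, y ∉ T → y ∈ S \ T := fun y hy h => Finset.mem_sdiff.2 ⟨hy, h⟩
    refine ⟨fun x => if x ∈ T then L1 x else L2 x + c, fun x => if x ∈ T then R1 x else R2 x + c,
      fun x => if x ∈ T then t1 x else t2 x, ?_, ?_, ?_⟩
    · intro x hx
      by_cases h : x ∈ T
      · simp only [h, if_true]; exact h11 x h
      · simp only [h, if_false]
        have := h21 x (hUS x hx h)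
        linarith
    · intro x hx
      by_cases h : x ∈ T
      · simp only [h, if_true]; exact h12 x h
      · simp only [h, if_false]; exact h22 x (hUS x hx h)
    · intro x hx y hy hxy
      by_cases h : x ∈ T
      · by_cases h' : y ∈ T
        · simp only [h, h', if_true]; exact h13 x h y h' hxy
        · simp only [h, h', if_true, if_false]
          have hp := hφ.pos _ _ (h12 x h) (h22 y (hUS y hy h'))
          rw [ov_zero (hc x h y (hUS y hy h'))]
          constructor
          · intro e; exact absurd e (hno x h y hy h')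
          · intro e; linarith
      · by_cases h' : y ∈ T
        · simp only [h, h', if_true, if_false]
          have hp := hφ.pos _ _ (h22 x (hUS x hx h)) (h12 y h')
          rw [ov_zero' (hc y h' x (hUS x hx h))]
          constructor
          · intro e; exact absurd (hsym _ _ e) (hno y h' x hx h)
          · intro e; linarith
        · simp only [h, h', if_false]
          rw [ov_shift]
          exact h23 x (hUS x hx h) y (hUS y hy h') hxy

end Pool.Agent.R231.TG
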