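import Pool.Agent.R231.TG.Basic

/-!
The base case: chordless suns. Labels `(i, false)` are the cycle vertices `v_i`, labels
`(i, true)` are the vertices `u_i`, adjacent to `v_i` and `v_{i+1}`.
-/

open Filter Finset

namespace Pool.Agent.R231.TG

section line

variable {x : ℕ → ℝ}

lemma pt_null (hx : Monotone x) {m n p q : ℕ} (h : min n q ≤ max m p) :
    ov (x m) (x n) (x p) (x q) = 0 := by
  unfold ov
  apply max_eq_left
  rw [← hx.map_min, ← hx.map_max]
  have := hx h
  linarith

lemma pt_ge (hx : Monotone x) {m n p q r : ℕ} (h1 : m ≤ r) (h2 : p ≤ r) (h3 : r + 1 ≤ n)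
    (h4 : r + 1 ≤ q) : x (r + 1) - x r ≤ ov (x m) (x n) (x p) (x q) := by
  unfold ov
  apply le_max_of_le_right
  rw [← hx.map_min, ← hx.map_max]
  have h5 : r + 1 ≤ min n q := le_min h3 h4
  have h6 : max m p ≤ r := max_le h1 h2
  have := hx h5
  have := hx h6
  linarith

end line

/-- adjacency of labels -/
def sA (k : ℕ) (p q : ℕ × Bool) : Prop :=
  (p.2 = false ∧ q.2 = false ∧ p.1 ≠ q.1 ∧
    (p.1 + 1 = q.1 ∨ q.1 + 1 = p.1 ∨ (p.1 = 0 ∧ q.1 + 1 = k) ∨ (q.1 = 0 ∧ p.1 + 1 = k))) ∨
  (p.2 = false ∧ q.2 = true ∧ (p.1 = q.1 ∨ p.1 = q.1 + 1 ∨ (p.1 = 0 ∧ q.1 + 1 = k))) ∨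
  (p.2 = true ∧ q.2 = false ∧ (q.1 = p.1 ∨ q.1 = p.1 + 1 ∨ (q.1 = 0 ∧ p.1 + 1 = k)))

lemma sA_symm {k : ℕ} {p q : ℕ × Bool} (h : sA k p q) : sA k q p := by
  rcases h with ⟨h1, h2, h3, h4⟩ | ⟨h1, h2, h3⟩ | ⟨h1, h2, h3⟩
  · exact Or.inl ⟨h2, h1, Ne.symm h3, by tauto⟩
  · exact Or.inr (Or.inr ⟨h2, h1, h3⟩)
  · exact Or.inr (Or.inl ⟨h2, h1, h3⟩)

lemma sA_ff {k i j : ℕ} : sA k (i, false) (j, false) ↔ i ≠ j ∧
    (i + 1 = j ∨ j + 1 = i ∨ (i = 0 ∧ j + 1 = k) ∨ (j = 0 ∧ i + 1 = k)) := by
  simp [sA]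

lemma sA_ft {k i j : ℕ} : sA k (i, false) (j, true) ↔
    (i = j ∨ i = j + 1 ∨ (i = 0 ∧ j + 1 = k)) := by
  simp [sA]

lemma sA_tf {k i j : ℕ} : sA k (i, true) (j, false) ↔
    (j = i ∨ j = i + 1 ∨ (j = 0 ∧ i + 1 = k)) := by
  simp [sA]

lemma sA_tt {k i j : ℕ} : ¬ sA k (i, true) (j, true) := by
  simp [sA]

lemma list_ev {l : List (ℝ × ℝ)} (hl : ∀ p ∈ l, 0 < p.2) {φ : ℝ → ℝ → ℝ} (hφ : Arch φ) :
    ∀ᶠ s in atTop, ∀ p ∈ l, p.1 < φ s p.2 := by
  have h : ∀ᶠ s in atTop, ∀ p ∈ {p | p ∈ l}, p.1 < φ s p.2 := by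
    rw [Filter.eventually_all_finite (List.finite_toSet l)]
    intro p hp
    exact (hφ.left p.2 (hl p hp)).eventually_gt_atTop p.1
  exact h

lemma mono_sum {d : ℕ → ℝ} (hd : ∀ n, 0 ≤ d n) : Monotone (fun n => ∑ i ∈ range n, d i) := by
  apply monotone_nat_of_le_succ
  intro n
  rw [Finset.sum_range_succ]
  linarith [hd n]

/-- the common part: an adjacency check together with its mirror image -/
lemma adj_swap {φ : ℝ → ℝ → ℝ} (hφ : Arch φ) {k : ℕ} {p q : ℕ × Bool} {a b c d s t : ℝ}
    (hs : 0 < s) (ht : 0 < t) (h : sA k p q ↔ φ s t ≤ ov a b c d) :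
    sA k q p ↔ φ t s ≤ ov c d a b := by
  rw [hφ.symm t s ht hs, ov_comm c d a b, ← h]
  exact ⟨sA_symm, sA_symm⟩

theorem sunA {k : ℕ} (hk : 3 ≤ k) : SU (sA k) (range k ×ˢ (univ : Finset Bool)) (0, false) := by
  intro φ hφ ld hld
  set τ : ℕ → ℝ := fun j => max (ld (j, true)).s 1 with hτ
  have τs : ∀ j, (ld (j, true)).s ≤ τ j := fun j => le_max_left _ _
  have τp : ∀ j, 0 < τ j := fun j => lt_of_lt_of_le one_pos (le_max_right _ _)
  clear_value τ
  -- tolerance of the cycle vertices
  obtain ⟨T, hT0, hT1⟩ : ∃ T : ℝ, 0 < T ∧ ∀ j ∈ range k, (ld (j, false)).s ≤ T ∧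
      ∀ p ∈ (ld (j, true)).F (τ j), p.1 < φ T p.2 := by
    have : ∀ᶠ T : ℝ in atTop, 0 < T ∧ ∀ j ∈ range k, (ld (j, false)).s ≤ T ∧
      ∀ p ∈ (ld (j, true)).F (τ j), p.1 < φ T p.2 := by
      refine (eventually_gt_atTop 0).and ?_
      rw [Filter.eventually_all_finset]
      intro j _
      exact (eventually_ge_atTop _).and (list_ev (hld _ _ (τs j)) hφ)
    exact this.exists
  -- small width
  obtain ⟨C, hC0, hC1, hC2⟩ : ∃ C : ℝ, 0 ≤ C ∧ φ T T ≤ C ∧ ∀ j ∈ range k, φ T (τ j) ≤ C ∧
      (ld (j, true)).W (τ j) ≤ C ∧ (ld (j, false)).W T ≤ C := by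
    have : ∀ᶠ C : ℝ in atTop, 0 ≤ C ∧ φ T T ≤ C ∧ ∀ j ∈ range k, φ T (τ j) ≤ C ∧
      (ld (j, true)).W (τ j) ≤ C ∧ (ld (j, false)).W T ≤ C := by
      refine (eventually_ge_atTop 0).and ((eventually_ge_atTop _).and ?_)
      rw [Filter.eventually_all_finset]
      intro j _
      exact (eventually_ge_atTop _).and ((eventually_ge_atTop _).and (eventually_ge_atTop _))
    exact this.exists
  have hev : ∀ᶠ s : ℝ in atTop, 0 < s ∧ (ld (0, false)).s ≤ s ∧ 3 * C < φ s T ∧
      ∀ j ∈ range k, C < φ s (τ j) ∧ (∀ p ∈ (ld (j, true)).F (τ j), p.1 < φ s p.2) ∧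
        (∀ p ∈ (ld (j, false)).F T, p.1 < φ s p.2) := by
    refine (eventually_gt_atTop 0).and ((eventually_ge_atTop _).and
      (((hφ.left T hT0).eventually_gt_atTop _).and ?_))
    rw [Filter.eventually_all_finset]
    intro j hj
    exact ((hφ.left _ (τp j)).eventually_gt_atTop _).and
      ((list_ev (hld _ _ (τs j)) hφ).and (list_ev (hld _ _ (hT1 j hj).1) hφ))
  filter_upwards [hev] with s hs
  obtain ⟨hs0, hs1, hs2, hs3⟩ := hs
  obtain ⟨D, hD0, hD1, hD2, hD3⟩ : ∃ D : ℝ, C ≤ D ∧ φ s T ≤ D ∧ (ld (0, false)).W s ≤ D ∧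
      ∀ j ∈ range k, φ s (τ j) ≤ D := by
    have : ∀ᶠ D : ℝ in atTop, C ≤ D ∧ φ s T ≤ D ∧ (ld (0, false)).W s ≤ D ∧
      ∀ j ∈ range k, φ s (τ j) ≤ D := by
      refine (eventually_ge_atTop _).and ((eventually_ge_atTop _).and
        ((eventually_ge_atTop _).and ?_))
      rw [Filter.eventually_all_finset]
      intro j _
      exact (eventually_ge_atTop _)
    exact this.exists
  set d : ℕ → ℝ := fun n => if n = 0 ∨ n = 1 ∨ 2 * k ≤ n + 3 then D else C with hd
  have dD : ∀ n, (n = 0 ∨ n = 1 ∨ 2 * k ≤ n + 3) → d n = D := fun n h => by simp only [hd, if_pos h]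
  have dC : ∀ n, ¬ (n = 0 ∨ n = 1 ∨ 2 * k ≤ n + 3) → d n = C := fun n h => by
    simp only [hd, if_neg h]
  have dge : ∀ n, C ≤ d n := by
    intro n
    by_cases h : n = 0 ∨ n = 1 ∨ 2 * k ≤ n + 3
    · rw [dD n h]; exact hD0
    · rw [dC n h]
  have dnn : ∀ n, 0 ≤ d n := fun n => hC0.trans (dge n)
  clear_value d
  set x : ℕ → ℝ := fun n => ∑ i ∈ range n, d i with hxdef
  have hx : Monotone x := mono_sum dnn
  have hxs : ∀ n, x (n + 1) - x n = d n := by
    intro n; rw [hxdef]; simp only [Finset.sum_range_succ]; ring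
  clear_value x
  set lf : ℕ × Bool → ℕ := fun p => if p.2 = true then 2 * p.1 else 2 * p.1 - 2 with hlf
  set rg : ℕ × Bool → ℕ := fun p => if p = (0, false) then 2 * k else 2 * p.1 + 1 with hrg
  set nu : ℕ × Bool → ℕ := fun p => if p = (0, false) then 2 * k - 1 else
    if p.2 = true then 2 * p.1 else 2 * p.1 - 1 with hnu
  set tt : ℕ × Bool → ℝ := fun p => if p = (0, false) then s else
    if p.2 = true then τ p.1 else T with htt
  -- values
  have v0 : lf (0, false) = 0 ∧ rg (0, false) = 2 * k ∧ nu (0, false) = 2 * k - 1 ∧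
      tt (0, false) = s := by simp [hlf, hrg, hnu, htt]
  have vj : ∀ j, 1 ≤ j → lf (j, false) = 2 * j - 2 ∧ rg (j, false) = 2 * j + 1 ∧
      nu (j, false) = 2 * j - 1 ∧ tt (j, false) = T := by
    intro j hj
    have : j ≠ 0 := by omega
    simp [hlf, hrg, hnu, htt, this]
  have uj : ∀ j, lf (j, true) = 2 * j ∧ rg (j, true) = 2 * j + 1 ∧ nu (j, true) = 2 * j ∧
      tt (j, true) = τ j := by
    intro j; simp [hlf, hrg, hnu, htt]
  clear_value lf rg nu tt
  obtain ⟨v01, v02, v03, v04⟩ := v0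
  have hmem : ∀ {i : ℕ} {β : Bool}, (i, β) ∈ range k ×ˢ (univ : Finset Bool) → i < k := by
    intro i β h
    simpa using h
  have ttp : ∀ p ∈ range k ×ˢ (univ : Finset Bool), 0 < tt p := by
    rintro ⟨i, _ | _⟩ hp
    · rcases Nat.eq_zero_or_pos i with rfl | hi
      · rw [v04]; exact hs0
      · rw [(vj i hi).2.2.2]; exact hT0
    · rw [(uj i).2.2.2]; exact τp i
  -- adjacency
  have adj0 : ∀ p ∈ range k ×ˢ (univ : Finset Bool), p ≠ (0, false) →
      (sA k (0, false) p ↔ φ (tt (0, false)) (tt p) ≤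
        ov (x (lf (0, false))) (x (rg (0, false))) (x (lf p)) (x (rg p))) := by
    rintro ⟨i, _ | _⟩ hp hne
    · have hik := hmem hp
      have hi : 1 ≤ i := by
        rcases Nat.eq_zero_or_pos i with rfl | hi
        · exact absurd rfl hne
        · exact hi
      obtain ⟨a1, a2, a3, a4⟩ := vj i hi
      rw [v01, v02, v04, a1, a2, a4, sA_ff]
      rw [ov_nest (hx (by omega)) (hx (by omega)) (hx (by omega))]
      have e1 := hxs (2 * i - 2)
      have e2 := hxs (2 * i - 1)
      have e3 := hxs (2 * i)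
      have f1 : 2 * i - 2 + 1 = 2 * i - 1 := by omega
      have f2 : 2 * i - 1 + 1 = 2 * i := by omega
      rw [f1] at e1
      rw [f2] at e2
      by_cases hc : i = 1 ∨ i + 1 = k
      · have h1 : d (2 * i - 1) = D := dD _ (by omega)
        have h2 := dnn (2 * i - 2)
        have h3 := dnn (2 * i)
        constructor
        · intro _; linarith
        · intro _
          refine ⟨by omega, by omega⟩
      · have h1 : d (2 * i - 1) = C := dC _ (by omega)
        have h2 : d (2 * i - 2) = C := dC _ (by omega)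
        have h3 : d (2 * i) = C := dC _ (by omega)
        constructor
        · intro h; exfalso; omega
        · intro h; exfalso; linarith
    · have hik := hmem hp
      obtain ⟨a1, a2, a3, a4⟩ := uj i
      rw [v01, v02, v04, a1, a2, a4, sA_ft]
      rw [ov_nest (hx (by omega)) (hx (by omega)) (hx (by omega)), hxs]
      have hsi := hs3 i (Finset.mem_range.2 hik)
      by_cases hc : i = 0 ∨ i + 1 = k
      · have h1 : d (2 * i) = D := dD _ (by omega)
        rw [h1]
        constructor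
        · intro _; exact hD3 i (Finset.mem_range.2 hik)
        · intro _; omega
      · have h1 : d (2 * i) = C := dC _ (by omega)
        rw [h1]
        constructor
        · intro h; exfalso; omega
        · intro h; exfalso; linarith [hsi.1]
  have adjvv : ∀ i j, 1 ≤ i → i < j → j < k →
      (sA k (i, false) (j, false) ↔ φ (tt (i, false)) (tt (j, false)) ≤
        ov (x (lf (i, false))) (x (rg (i, false))) (x (lf (j, false))) (x (rg (j, false)))) := by
    intro i j hi hij hjk
    obtain ⟨a1, a2, a3, a4⟩ := vj i hi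
    obtain ⟨b1, b2, b3, b4⟩ := vj j (by omega)
    rw [a1, a2, a4, b1, b2, b4, sA_ff]
    by_cases hc : i + 1 = j
    · have h1 := pt_ge hx (m := 2 * i - 2) (n := 2 * i + 1) (p := 2 * j - 2) (q := 2 * j + 1)
        (r := 2 * i) (by omega) (by omega) (by omega) (by omega)
      rw [hxs] at h1
      constructor
      · intro _; linarith [dge (2 * i)]
      · intro _; exact ⟨by omega, by omega⟩
    · have h1 := pt_null hx (m := 2 * i - 2) (n := 2 * i + 1) (p := 2 * j - 2) (q := 2 * j + 1)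
        (by omega)
      rw [h1]
      have := hφ.pos T T hT0 hT0
      constructor
      · intro h; exfalso; omega
      · intro h; exfalso; linarith
  have adjvu : ∀ i j, 1 ≤ i → i < k → j < k →
      (sA k (i, false) (j, true) ↔ φ (tt (i, false)) (tt (j, true)) ≤
        ov (x (lf (i, false))) (x (rg (i, false))) (x (lf (j, true))) (x (rg (j, true)))) := by
    intro i j hi hik hjk
    obtain ⟨a1, a2, a3, a4⟩ := vj i hi
    obtain ⟨b1, b2, b3, b4⟩ := uj j
    rw [a1, a2, a4, b1, b2, b4, sA_ft]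
    by_cases hc : i = j ∨ i = j + 1
    · have h1 := pt_ge hx (m := 2 * i - 2) (n := 2 * i + 1) (p := 2 * j) (q := 2 * j + 1)
        (r := 2 * j) (by omega) (by omega) (by omega) (by omega)
      rw [hxs] at h1
      constructor
      · intro _; linarith [dge (2 * j), (hC2 j (Finset.mem_range.2 hjk)).1]
      · intro _; omega
    · have h1 := pt_null hx (m := 2 * i - 2) (n := 2 * i + 1) (p := 2 * j) (q := 2 * j + 1)
        (by omega)
      rw [h1]
      have := hφ.pos T (τ j) hT0 (τp j)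
      constructor
      · intro h; exfalso; omega
      · intro h; exfalso; linarith
  have adjuu : ∀ i j, i ≠ j →
      (sA k (i, true) (j, true) ↔ φ (tt (i, true)) (tt (j, true)) ≤
        ov (x (lf (i, true))) (x (rg (i, true))) (x (lf (j, true))) (x (rg (j, true)))) := by
    intro i j hij
    obtain ⟨a1, a2, a3, a4⟩ := uj i
    obtain ⟨b1, b2, b3, b4⟩ := uj j
    rw [a1, a2, a4, b1, b2, b4]
    have h1 := pt_null hx (m := 2 * i) (n := 2 * i + 1) (p := 2 * j) (q := 2 * j + 1)
        (by omega)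
    rw [h1]
    have := hφ.pos (τ i) (τ j) (τp i) (τp j)
    constructor
    · intro h; exact absurd h sA_tt
    · intro h; exfalso; linarith
  refine ⟨fun p => x (lf p), fun p => x (rg p), tt, fun p => x (nu p), fun p => x (nu p + 1),
    ?_, ttp, ?_, v04, ?_, ?_, ?_, ?_, ?_, ?_⟩
  · rintro ⟨i, _ | _⟩ hp
    · rcases Nat.eq_zero_or_pos i with rfl | hi
      · simp only [v01, v02]; exact hx (by omega)
      · obtain ⟨a1, a2, a3, a4⟩ := vj i hi
        simp only [a1, a2]; exact hx (by omega)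
    · obtain ⟨a1, a2, a3, a4⟩ := uj i
      simp only [a1, a2]; exact hx (by omega)
  · rintro ⟨i, β⟩ hp ⟨j, γ⟩ hq hpq
    have hik := hmem hp
    have hjk := hmem hq
    by_cases h1 : ((i, β) : ℕ × Bool) = (0, false)
    · rw [h1]
      exact adj0 _ hq (fun e => hpq (h1.trans e.symm))
    by_cases h2 : ((j, γ) : ℕ × Bool) = (0, false)
    · rw [h2]
      exact adj_swap hφ hs0 (ttp _ hp) (v04 ▸ adj0 _ hp h1) |> (fun h => by rw [v04]; exact h)
    cases β
    · have hi : 1 ≤ i := by
        rcases Nat.eq_zero_or_pos i with rfl | hi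
        · exact absurd rfl h1
        · exact hi
      cases γ
      · have hj : 1 ≤ j := by
          rcases Nat.eq_zero_or_pos j with rfl | hj
          · exact absurd rfl h2
          · exact hj
        have hij : i ≠ j := fun e => hpq (by rw [e])
        rcases lt_or_gt_of_ne hij with h | h
        · exact adjvv i j hi h hjk
        · exact adj_swap hφ (ttp _ hq) (ttp _ hp) (adjvv j i hj h hik)
      · exact adjvu i j hi hik hjk
    · cases γ
      · have hj : 1 ≤ j := by
          rcases Nat.eq_zero_or_pos j with rfl | hj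
          · exact absurd rfl h2
          · exact hj
        exact adj_swap hφ (ttp _ hq) (ttp _ hp) (adjvu j i hj hjk hik)
      · exact adjuu i j (fun e => hpq (by rw [e]))
  · rintro ⟨i, _ | _⟩ hp
    · have hik := hmem hp
      simp only [v01, v02]
      rcases Nat.eq_zero_or_pos i with rfl | hi
      · simp only [v01, v02]; exact ⟨le_rfl, le_rfl⟩
      · obtain ⟨a1, a2, a3, a4⟩ := vj i hi
        simp only [a1, a2]; exact ⟨hx (by omega), hx (by omega)⟩
    · have hik := hmem hp
      obtain ⟨a1, a2, a3, a4⟩ := uj i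
      simp only [a1, a2, v01, v02]; exact ⟨hx (by omega), hx (by omega)⟩
  · rintro ⟨i, _ | _⟩ hp
    · rcases Nat.eq_zero_or_pos i with rfl | hi
      · rw [v04]; exact hs1
      · rw [(vj i hi).2.2.2]; exact (hT1 i (Finset.mem_range.2 (hmem hp))).1
    · rw [(uj i).2.2.2]; exact τs i
  · rintro ⟨i, _ | _⟩ hp
    · have hik := hmem hp
      rcases Nat.eq_zero_or_pos i with rfl | hi
      · simp only [v01, v02, v03]; exact ⟨hx (by omega), hx (by omega), hx (by omega)⟩
      · obtain ⟨a1, a2, a3, a4⟩ := vj i hi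
        simp only [a1, a2, a3]; exact ⟨hx (by omega), hx (by omega), hx (by omega)⟩
    · obtain ⟨a1, a2, a3, a4⟩ := uj i
      simp only [a1, a2, a3]; exact ⟨hx (by omega), hx (by omega), hx (by omega)⟩
  · rintro ⟨i, _ | _⟩ hp
    · have hik := hmem hp
      rcases Nat.eq_zero_or_pos i with rfl | hi
      · simp only [v03, v04, hxs]
        rw [dD _ (by omega)]; exact hD2
      · obtain ⟨a1, a2, a3, a4⟩ := vj i hi
        simp only [a3, a4, hxs]
        exact le_trans (hC2 i (Finset.mem_range.2 hik)).2.2 (dge _)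
    · have hik := hmem hp
      obtain ⟨a1, a2, a3, a4⟩ := uj i
      simp only [a3, a4, hxs]
      exact le_trans (hC2 i (Finset.mem_range.2 hik)).2.1 (dge _)
  · rintro ⟨i, β⟩ hp ⟨j, γ⟩ hq hpq
    have hik := hmem hp
    have hjk := hmem hq
    have hnn : nu (i, β) ≠ nu (j, γ) := by
      rcases Nat.eq_zero_or_pos i with rfl | hi <;> rcases Nat.eq_zero_or_pos j with rfl | hj <;>
        cases β <;> cases γ
      all_goals first
        | exact absurd rfl hpq
        | skip
      · rw [v03, (uj 0).2.2.1]; omega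
      · rw [v03, (uj 0).2.2.1]; omega
      · rw [v03, (vj j hj).2.2.1]; omega
      · rw [v03, (uj j).2.2.1]; omega
      · rw [(uj 0).2.2.1, (vj j hj).2.2.1]; omega
      · rw [(uj 0).2.2.1, (uj j).2.2.1]; omega
      · rw [v03, (vj i hi).2.2.1]; omega
      · rw [(uj 0).2.2.1, (vj i hi).2.2.1]; omega
      · rw [v03, (uj i).2.2.1]; omega
      · rw [(uj 0).2.2.1, (uj i).2.2.1]; omega
      · rw [(vj i hi).2.2.1, (vj j hj).2.2.1]
        intro e; apply hpq; congr 1; omega
      · rw [(vj i hi).2.2.1, (uj j).2.2.1]; omega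
      · rw [(vj j hj).2.2.1, (uj i).2.2.1]; omega
      · rw [(uj i).2.2.1, (uj j).2.2.1]
        intro e; apply hpq; congr 1; omega
    exact pt_null hx (by omega)
  · rintro ⟨i, β⟩ hp ⟨j, γ⟩ hq hpq
    have hik := hmem hp
    have hjk := hmem hq
    cases β
    · rcases Nat.eq_zero_or_pos i with rfl | hi
      · -- root segment meets nothing
        left
        apply pt_null hx
        rw [v03]
        cases γ
        · have hj : 1 ≤ j := by
            rcases Nat.eq_zero_or_pos j with rfl | hj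
            · exact absurd rfl hpq
            · exact hj
          rw [(vj j hj).1, (vj j hj).2.1]; omega
        · rw [(uj j).1, (uj j).2.1]; omega
      · cases γ
        · rcases Nat.eq_zero_or_pos j with rfl | hj
          · right
            rw [(vj i hi).2.2.2, v04]
            exact (hs3 i (Finset.mem_range.2 hik)).2.2
          · left
            have hij : i ≠ j := fun e => hpq (by rw [e])
            apply pt_null hx
            rw [(vj i hi).2.2.1, (vj j hj).1, (vj j hj).2.1]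
            omega
        · left
          apply pt_null hx
          rw [(vj i hi).2.2.1, (uj j).1, (uj j).2.1]
          omega
    · cases γ
      · right
        rcases Nat.eq_zero_or_pos j with rfl | hj
        · rw [(uj i).2.2.2, v04]
          exact (hs3 i (Finset.mem_range.2 hik)).2.1
        · rw [(uj i).2.2.2, (vj j hj).2.2.2]
          exact (hT1 i (Finset.mem_range.2 hik)).2
      · left
        have hij : i ≠ j := fun e => hpq (by rw [e])
        apply pt_null hx
        rw [(uj i).2.2.1, (uj j).1, (uj j).2.1]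
        omega

end Pool.Agent.R231.TG
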