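import Pool.Agent.R231.TG.Sun

/-!
The base case with root `u_0`.
-/

open Filter Finset

namespace Pool.Agent.R231.TG

theorem sunB {k : ℕ} (hk : 3 ≤ k) : SU (sA k) (range k ×ˢ (univ : Finset Bool)) (0, true) := by
  intro φ hφ ld hld
  set τ : ℕ → ℝ := fun j => max (ld (j, true)).s 1 with hτ
  have τs : ∀ j, (ld (j, true)).s ≤ τ j := fun j => le_max_left _ _
  have τp : ∀ j, 0 < τ j := fun j => lt_of_lt_of_le one_pos (le_max_right _ _)
  clear_value τ
  obtain ⟨T, hT0, hT1⟩ : ∃ T : ℝ, 0 < T ∧ ∀ j ∈ range k, (ld (j, false)).s ≤ T ∧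
      ∀ p ∈ (ld (j, true)).F (τ j), p.1 < φ T p.2 := by
    have : ∀ᶠ T : ℝ in atTop, 0 < T ∧ ∀ j ∈ range k, (ld (j, false)).s ≤ T ∧
      ∀ p ∈ (ld (j, true)).F (τ j), p.1 < φ T p.2 := by
      refine (eventually_gt_atTop 0).and ?_
      rw [Filter.eventually_all_finset]
      intro j _
      exact (eventually_ge_atTop _).and (list_ev (hld _ _ (τs j)) hφ)
    exact this.exists
  obtain ⟨C, hC0, hC1, hC2⟩ : ∃ C : ℝ, 0 ≤ C ∧ φ T T ≤ C ∧ ∀ j ∈ range k, φ T (τ j) ≤ C ∧
      (ld (j, true)).W (τ j) ≤ C ∧ (ld (j, false)).W T ≤ C := by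
    have : ∀ᶠ C : ℝ in atTop, 0 ≤ C ∧ φ T T ≤ C ∧ ∀ j ∈ range k, φ T (τ j) ≤ C ∧
      (ld (j, true)).W (τ j) ≤ C ∧ (ld (j, false)).W T ≤ C := by
      refine (eventually_ge_atTop 0).and ((eventually_ge_atTop _).and ?_)
      rw [Filter.eventually_all_finset]
      intro j _
      exact (eventually_ge_atTop _).and ((eventually_ge_atTop _).and (eventually_ge_atTop _))
    exact this.exists
  -- tolerance of `v_0`
  obtain ⟨U, hU0, hU1, hU2, hU3⟩ : ∃ U : ℝ, 0 < U ∧ (ld (0, false)).s ≤ U ∧ 3 * C < φ U T ∧
      ∀ j ∈ range k, C < φ U (τ j) ∧ (∀ p ∈ (ld (j, true)).F (τ j), p.1 < φ U p.2) ∧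
        (∀ p ∈ (ld (j, false)).F T, p.1 < φ U p.2) := by
    have : ∀ᶠ s : ℝ in atTop, 0 < s ∧ (ld (0, false)).s ≤ s ∧ 3 * C < φ s T ∧
      ∀ j ∈ range k, C < φ s (τ j) ∧ (∀ p ∈ (ld (j, true)).F (τ j), p.1 < φ s p.2) ∧
        (∀ p ∈ (ld (j, false)).F T, p.1 < φ s p.2) := by
      refine (eventually_gt_atTop 0).and ((eventually_ge_atTop _).and
        (((hφ.left T hT0).eventually_gt_atTop _).and ?_))
      rw [Filter.eventually_all_finset]
      intro j hj
      exact ((hφ.left _ (τp j)).eventually_gt_atTop _).and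
        ((list_ev (hld _ _ (τs j)) hφ).and (list_ev (hld _ _ (hT1 j hj).1) hφ))
    exact this.exists
  obtain ⟨M, hM0, hM1, hM2⟩ : ∃ M : ℝ, C ≤ M ∧ φ U T ≤ M ∧ ∀ j ∈ range k, φ U (τ j) ≤ M := by
    have : ∀ᶠ M : ℝ in atTop, C ≤ M ∧ φ U T ≤ M ∧ ∀ j ∈ range k, φ U (τ j) ≤ M := by
      refine (eventually_ge_atTop _).and ((eventually_ge_atTop _).and ?_)
      rw [Filter.eventually_all_finset]
      intro j _
      exact (eventually_ge_atTop _)
    exact this.exists
  have hev : ∀ᶠ s : ℝ in atTop, 0 < s ∧ (ld (0, true)).s ≤ s ∧ 2 * C + M < φ s T ∧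
      (∀ p ∈ (ld (0, false)).F U, p.1 < φ s p.2) ∧
      ∀ j ∈ range k, M < φ s (τ j) ∧ (∀ p ∈ (ld (j, true)).F (τ j), p.1 < φ s p.2) ∧
        (∀ p ∈ (ld (j, false)).F T, p.1 < φ s p.2) := by
    refine (eventually_gt_atTop 0).and ((eventually_ge_atTop _).and
      (((hφ.left T hT0).eventually_gt_atTop _).and ((list_ev (hld _ _ hU1) hφ).and ?_)))
    rw [Filter.eventually_all_finset]
    intro j hj
    exact ((hφ.left _ (τp j)).eventually_gt_atTop _).and
      ((list_ev (hld _ _ (τs j)) hφ).and (list_ev (hld _ _ (hT1 j hj).1) hφ))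
  filter_upwards [hev] with s hs
  obtain ⟨hs0, hs1, hs2, hs2', hs3⟩ := hs
  obtain ⟨D, hD0, hD1, hD2, hD3, hD4, hD5⟩ : ∃ D : ℝ, C ≤ D ∧ φ s T ≤ D ∧ φ s U ≤ D ∧
      φ U T ≤ D ∧ (ld (0, false)).W U ≤ D ∧ (ld (0, true)).W s ≤ D := by
    have : ∀ᶠ D : ℝ in atTop, C ≤ D ∧ φ s T ≤ D ∧ φ s U ≤ D ∧
      φ U T ≤ D ∧ (ld (0, false)).W U ≤ D ∧ (ld (0, true)).W s ≤ D :=
      (eventually_ge_atTop _).and ((eventually_ge_atTop _).and
        ((eventually_ge_atTop _).and ((eventually_ge_atTop _).and
          ((eventually_ge_atTop _).and (eventually_ge_atTop _)))))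
    exact this.exists
  set d : ℕ → ℝ := fun n => if n = 0 ∨ 2 * k ≤ n + 1 then D else
    if n + 2 = 2 * k then M else C with hd
  have dD : ∀ n, (n = 0 ∨ 2 * k ≤ n + 1) → d n = D := fun n h => by simp only [hd, if_pos h]
  have dM : ∀ n, n + 2 = 2 * k → d n = M := fun n h => by
    have h1 : ¬ (n = 0 ∨ 2 * k ≤ n + 1) := by omega
    simp only [hd, if_neg h1, if_pos h]
  have dC : ∀ n, ¬ (n = 0 ∨ 2 * k ≤ n + 2) → d n = C := fun n h => by
    have h1 : ¬ (n = 0 ∨ 2 * k ≤ n + 1) := by omega
    have h2 : ¬ (n + 2 = 2 * k) := by omega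
    simp only [hd, if_neg h1, if_neg h2]
  have dge : ∀ n, C ≤ d n := by
    intro n
    by_cases h : n = 0 ∨ 2 * k ≤ n + 1
    · rw [dD n h]; exact hD0
    · by_cases h' : n + 2 = 2 * k
      · rw [dM n h']; exact hM0
      · rw [dC n (by omega)]
  have dle : ∀ n, ¬ (n = 0 ∨ 2 * k ≤ n + 1) → d n ≤ M := by
    intro n h
    by_cases h' : n + 2 = 2 * k
    · rw [dM n h']
    · rw [dC n (by omega)]; exact hM0
  have dnn : ∀ n, 0 ≤ d n := fun n => hC0.trans (dge n)
  clear_value d
  set x : ℕ → ℝ := fun n => ∑ i ∈ range n, d i with hxdef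
  have hx : Monotone x := mono_sum dnn
  have hxs : ∀ n, x (n + 1) - x n = d n := by
    intro n; rw [hxdef]; simp only [Finset.sum_range_succ]; ring
  clear_value x
  set lf : ℕ × Bool → ℕ := fun p => if p = (0, true) then 0 else
    if p.2 = true then 2 * p.1 else 2 * p.1 - 2 with hlf
  set rg : ℕ × Bool → ℕ := fun p => if p = (0, false) then 2 * k else
    if p = (0, true) then 2 * k + 1 else 2 * p.1 + 1 with hrg
  set nu : ℕ × Bool → ℕ := fun p => if p = (0, false) then 2 * k - 1 else
    if p = (0, true) then 2 * k else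
    if p.2 = true then 2 * p.1 else 2 * p.1 - 1 with hnu
  set tt : ℕ × Bool → ℝ := fun p => if p = (0, false) then U else
    if p = (0, true) then s else if p.2 = true then τ p.1 else T with htt
  have v0 : lf (0, false) = 0 ∧ rg (0, false) = 2 * k ∧ nu (0, false) = 2 * k - 1 ∧
      tt (0, false) = U := by simp [hlf, hrg, hnu, htt]
  have u0 : lf (0, true) = 0 ∧ rg (0, true) = 2 * k + 1 ∧ nu (0, true) = 2 * k ∧
      tt (0, true) = s := by simp [hlf, hrg, hnu, htt]
  have vj : ∀ j, 1 ≤ j → lf (j, false) = 2 * j - 2 ∧ rg (j, false) = 2 * j + 1 ∧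
      nu (j, false) = 2 * j - 1 ∧ tt (j, false) = T := by
    intro j hj
    have : j ≠ 0 := by omega
    simp [hlf, hrg, hnu, htt, this]
  have uj : ∀ j, 1 ≤ j → lf (j, true) = 2 * j ∧ rg (j, true) = 2 * j + 1 ∧
      nu (j, true) = 2 * j ∧ tt (j, true) = τ j := by
    intro j hj
    have : j ≠ 0 := by omega
    simp [hlf, hrg, hnu, htt, this]
  clear_value lf rg nu tt
  obtain ⟨v01, v02, v03, v04⟩ := v0
  obtain ⟨u01, u02, u03, u04⟩ := u0
  have hmem : ∀ {i : ℕ} {β : Bool}, (i, β) ∈ range k ×ˢ (univ : Finset Bool) → i < k := by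
    intro i β h
    simpa using h
  have ttp : ∀ p ∈ range k ×ˢ (univ : Finset Bool), 0 < tt p := by
    rintro ⟨i, _ | _⟩ hp
    · rcases Nat.eq_zero_or_pos i with rfl | hi
      · rw [v04]; exact hU0
      · rw [(vj i hi).2.2.2]; exact hT0
    · rcases Nat.eq_zero_or_pos i with rfl | hi
      · rw [u04]; exact hs0
      · rw [(uj i hi).2.2.2]; exact τp i
  -- adjacency with the root
  have adj1 : ∀ p ∈ range k ×ˢ (univ : Finset Bool), p ≠ (0, true) →
      (sA k (0, true) p ↔ φ (tt (0, true)) (tt p) ≤
        ov (x (lf (0, true))) (x (rg (0, true))) (x (lf p)) (x (rg p))) := by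
    rintro ⟨i, _ | _⟩ hp hne
    · have hik := hmem hp
      rcases Nat.eq_zero_or_pos i with rfl | hi
      · rw [u01, u02, u04, v01, v02, v04, sA_tf]
        have h1 := pt_ge hx (m := 0) (n := 2 * k + 1) (p := 0) (q := 2 * k)
          (r := 0) (by omega) (by omega) (by omega) (by omega)
        rw [hxs, dD 0 (by omega)] at h1
        constructor
        · intro _; linarith
        · intro _; omega
      · obtain ⟨a1, a2, a3, a4⟩ := vj i hi
        rw [u01, u02, u04, a1, a2, a4, sA_tf]
        rw [ov_nest (hx (by omega)) (hx (by omega)) (hx (by omega))]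
        have e1 := hxs (2 * i - 2)
        have e2 := hxs (2 * i - 1)
        have e3 := hxs (2 * i)
        have f1 : 2 * i - 2 + 1 = 2 * i - 1 := by omega
        have f2 : 2 * i - 1 + 1 = 2 * i := by omega
        rw [f1] at e1
        rw [f2] at e2
        by_cases hc : i = 1
        · have h1 : d (2 * i - 2) = D := dD _ (by omega)
          have h2 := dnn (2 * i - 1)
          have h3 := dnn (2 * i)
          constructor
          · intro _; linarith
          · intro _; omega
        · have h1 : d (2 * i - 1) = C := dC _ (by omega)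
          have h2 : d (2 * i - 2) = C := dC _ (by omega)
          have h3 : d (2 * i) ≤ M := dle _ (by omega)
          constructor
          · intro h; exfalso; omega
          · intro h; exfalso; linarith
    · have hik := hmem hp
      have hi : 1 ≤ i := by
        rcases Nat.eq_zero_or_pos i with rfl | hi
        · exact absurd rfl hne
        · exact hi
      obtain ⟨a1, a2, a3, a4⟩ := uj i hi
      rw [u01, u02, u04, a1, a2, a4]
      rw [ov_nest (hx (by omega)) (hx (by omega)) (hx (by omega)), hxs]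
      have hsi := hs3 i (Finset.mem_range.2 hik)
      have h3 : d (2 * i) ≤ M := dle _ (by omega)
      constructor
      · intro h; exact absurd h sA_tt
      · intro h; exfalso; linarith [hsi.1]
  have adj0 : ∀ p ∈ range k ×ˢ (univ : Finset Bool), p ≠ (0, false) → p ≠ (0, true) →
      (sA k (0, false) p ↔ φ (tt (0, false)) (tt p) ≤
        ov (x (lf (0, false))) (x (rg (0, false))) (x (lf p)) (x (rg p))) := by
    rintro ⟨i, _ | _⟩ hp hne hne'
    · have hik := hmem hp
      have hi : 1 ≤ i := by
        rcases Nat.eq_zero_or_pos i with rfl | hi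
        · exact absurd rfl hne
        · exact hi
      obtain ⟨a1, a2, a3, a4⟩ := vj i hi
      rw [v01, v02, v04, a1, a2, a4, sA_ff]
      rw [ov_nest (hx (by omega)) (hx (by omega)) (hx (by omega))]
      have e1 := hxs (2 * i - 2)
      have e2 := hxs (2 * i - 1)
      have e3 := hxs (2 * i)
      have f1 : 2 * i - 2 + 1 = 2 * i - 1 := by omega
      have f2 : 2 * i - 1 + 1 = 2 * i := by omega
      rw [f1] at e1
      rw [f2] at e2
      have n1 := dnn (2 * i - 2)
      have n2 := dnn (2 * i - 1)
      have n3 := dnn (2 * i)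
      by_cases hc : i = 1
      · have h1 : d (2 * i - 2) = D := dD _ (by omega)
        constructor
        · intro _; linarith
        · intro _
          refine ⟨by omega, by omega⟩
      · by_cases hc' : i + 1 = k
        · have h1 : d (2 * i) = M := dM _ (by omega)
          constructor
          · intro _; linarith
          · intro _
            refine ⟨by omega, by omega⟩
        · have h1 : d (2 * i - 1) = C := dC _ (by omega)
          have h2 : d (2 * i - 2) = C := dC _ (by omega)
          have h3 : d (2 * i) = C := dC _ (by omega)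
          constructor
          · intro h; exfalso; omega
          · intro h; exfalso; linarith
    · have hik := hmem hp
      have hi : 1 ≤ i := by
        rcases Nat.eq_zero_or_pos i with rfl | hi
        · exact absurd rfl hne'
        · exact hi
      obtain ⟨a1, a2, a3, a4⟩ := uj i hi
      rw [v01, v02, v04, a1, a2, a4, sA_ft]
      rw [ov_nest (hx (by omega)) (hx (by omega)) (hx (by omega)), hxs]
      have hsi := hU3 i (Finset.mem_range.2 hik)
      by_cases hc : i + 1 = k
      · have h1 : d (2 * i) = M := dM _ (by omega)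
        rw [h1]
        constructor
        · intro _; exact hM2 i (Finset.mem_range.2 hik)
        · intro _; omega
      · have h1 : d (2 * i) = C := dC _ (by omega)
        rw [h1]
        constructor
        · intro h; exfalso; omega
        · intro h; exfalso; linarith [hsi.1]
  have adjvv : ∀ i j, 1 ≤ i → i < j → j < k →
      (sA k (i, false) (j, false) ↔ φ (tt (i, false)) (tt (j, false)) ≤
        ov (x (lf (i, false))) (x (rg (i, false))) (x (lf (j, false))) (x (rg (j, false)))) := by
    intro i j hi hij hjk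
    obtain ⟨a1, a2, a3, a4⟩ := vj i hi
    obtain ⟨b1, b2, b3, b4⟩ := vj j (by omega)
    rw [a1, a2, a4, b1, b2, b4, sA_ff]
    by_cases hc : i + 1 = j
    · have h1 := pt_ge hx (m := 2 * i - 2) (n := 2 * i + 1) (p := 2 * j - 2) (q := 2 * j + 1)
        (r := 2 * i) (by omega) (by omega) (by omega) (by omega)
      rw [hxs] at h1
      constructor
      · intro _; linarith [dge (2 * i)]
      · intro _; exact ⟨by omega, by omega⟩
    · have h1 := pt_null hx (m := 2 * i - 2) (n := 2 * i + 1) (p := 2 * j - 2) (q := 2 * j + 1)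
        (by omega)
      rw [h1]
      have := hφ.pos T T hT0 hT0
      constructor
      · intro h; exfalso; omega
      · intro h; exfalso; linarith
  have adjvu : ∀ i j, 1 ≤ i → 1 ≤ j → i < k → j < k →
      (sA k (i, false) (j, true) ↔ φ (tt (i, false)) (tt (j, true)) ≤
        ov (x (lf (i, false))) (x (rg (i, false))) (x (lf (j, true))) (x (rg (j, true)))) := by
    intro i j hi hj hik hjk
    obtain ⟨a1, a2, a3, a4⟩ := vj i hi
    obtain ⟨b1, b2, b3, b4⟩ := uj j hj
    rw [a1, a2, a4, b1, b2, b4, sA_ft]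
    by_cases hc : i = j ∨ i = j + 1
    · have h1 := pt_ge hx (m := 2 * i - 2) (n := 2 * i + 1) (p := 2 * j) (q := 2 * j + 1)
        (r := 2 * j) (by omega) (by omega) (by omega) (by omega)
      rw [hxs] at h1
      constructor
      · intro _; linarith [dge (2 * j), (hC2 j (Finset.mem_range.2 hjk)).1]
      · intro _; omega
    · have h1 := pt_null hx (m := 2 * i - 2) (n := 2 * i + 1) (p := 2 * j) (q := 2 * j + 1)
        (by omega)
      rw [h1]
      have := hφ.pos T (τ j) hT0 (τp j)
      constructor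
      · intro h; exfalso; omega
      · intro h; exfalso; linarith
  have adjuu : ∀ i j, 1 ≤ i → 1 ≤ j → i ≠ j →
      (sA k (i, true) (j, true) ↔ φ (tt (i, true)) (tt (j, true)) ≤
        ov (x (lf (i, true))) (x (rg (i, true))) (x (lf (j, true))) (x (rg (j, true)))) := by
    intro i j hi hj hij
    obtain ⟨a1, a2, a3, a4⟩ := uj i hi
    obtain ⟨b1, b2, b3, b4⟩ := uj j hj
    rw [a1, a2, a4, b1, b2, b4]
    have h1 := pt_null hx (m := 2 * i) (n := 2 * i + 1) (p := 2 * j) (q := 2 * j + 1)
        (by omega)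
    rw [h1]
    have := hφ.pos (τ i) (τ j) (τp i) (τp j)
    constructor
    · intro h; exact absurd h sA_tt
    · intro h; exfalso; linarith
  refine ⟨fun p => x (lf p), fun p => x (rg p), tt, fun p => x (nu p), fun p => x (nu p + 1),
    ?_, ttp, ?_, u04, ?_, ?_, ?_, ?_, ?_, ?_⟩
  · rintro ⟨i, _ | _⟩ hp
    · rcases Nat.eq_zero_or_pos i with rfl | hi
      · simp only [v01, v02]; exact hx (by omega)
      · obtain ⟨a1, a2, a3, a4⟩ := vj i hi
        simp only [a1, a2]; exact hx (by omega)
    · rcases Nat.eq_zero_or_pos i with rfl | hi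
      · simp only [u01, u02]; exact hx (by omega)
      · obtain ⟨a1, a2, a3, a4⟩ := uj i hi
        simp only [a1, a2]; exact hx (by omega)
  · rintro ⟨i, β⟩ hp ⟨j, γ⟩ hq hpq
    have hik := hmem hp
    have hjk := hmem hq
    by_cases g1 : ((i, β) : ℕ × Bool) = (0, true)
    · rw [g1]
      exact adj1 _ hq (fun e => hpq (g1.trans e.symm))
    by_cases g2 : ((j, γ) : ℕ × Bool) = (0, true)
    · rw [g2]
      exact adj_swap hφ hs0 (ttp _ hp) (u04 ▸ adj1 _ hp g1) |> (fun h => by rw [u04]; exact h)
    by_cases h1 : ((i, β) : ℕ × Bool) = (0, false)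
    · rw [h1]
      exact adj0 _ hq (fun e => hpq (h1.trans e.symm)) g2
    by_cases h2 : ((j, γ) : ℕ × Bool) = (0, false)
    · rw [h2]
      exact adj_swap hφ hU0 (ttp _ hp) (v04 ▸ adj0 _ hp h1 g1) |>
        (fun h => by rw [v04]; exact h)
    cases β
    · have hi : 1 ≤ i := by
        rcases Nat.eq_zero_or_pos i with rfl | hi
        · exact absurd rfl h1
        · exact hi
      cases γ
      · have hj : 1 ≤ j := by
          rcases Nat.eq_zero_or_pos j with rfl | hj
          · exact absurd rfl h2
          · exact hj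
        have hij : i ≠ j := fun e => hpq (by rw [e])
        rcases lt_or_gt_of_ne hij with h | h
        · exact adjvv i j hi h hjk
        · exact adj_swap hφ (ttp _ hq) (ttp _ hp) (adjvv j i hj h hik)
      · have hj : 1 ≤ j := by
          rcases Nat.eq_zero_or_pos j with rfl | hj
          · exact absurd rfl g2
          · exact hj
        exact adjvu i j hi hj hik hjk
    · have hi : 1 ≤ i := by
        rcases Nat.eq_zero_or_pos i with rfl | hi
        · exact absurd rfl g1
        · exact hi
      cases γ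
      · have hj : 1 ≤ j := by
          rcases Nat.eq_zero_or_pos j with rfl | hj
          · exact absurd rfl h2
          · exact hj
        exact adj_swap hφ (ttp _ hq) (ttp _ hp) (adjvu j i hj hi hjk hik)
      · have hj : 1 ≤ j := by
          rcases Nat.eq_zero_or_pos j with rfl | hj
          · exact absurd rfl g2
          · exact hj
        exact adjuu i j hi hj (fun e => hpq (by rw [e]))
  · rintro ⟨i, _ | _⟩ hp
    · have hik := hmem hp
      rcases Nat.eq_zero_or_pos i with rfl | hi
      · simp only [v01, v02, u01, u02]; exact ⟨le_rfl, hx (by omega)⟩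
      · obtain ⟨a1, a2, a3, a4⟩ := vj i hi
        simp only [a1, a2, u01, u02]; exact ⟨hx (by omega), hx (by omega)⟩
    · have hik := hmem hp
      rcases Nat.eq_zero_or_pos i with rfl | hi
      · simp only [u01, u02]; exact ⟨le_rfl, le_rfl⟩
      · obtain ⟨a1, a2, a3, a4⟩ := uj i hi
        simp only [a1, a2, u01, u02]; exact ⟨hx (by omega), hx (by omega)⟩
  · rintro ⟨i, _ | _⟩ hp
    · rcases Nat.eq_zero_or_pos i with rfl | hi
      · rw [v04]; exact hU1
      · rw [(vj i hi).2.2.2]; exact (hT1 i (Finset.mem_range.2 (hmem hp))).1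
    · rcases Nat.eq_zero_or_pos i with rfl | hi
      · rw [u04]; exact hs1
      · rw [(uj i hi).2.2.2]; exact τs i
  · rintro ⟨i, _ | _⟩ hp
    · have hik := hmem hp
      rcases Nat.eq_zero_or_pos i with rfl | hi
      · simp only [v01, v02, v03]; exact ⟨hx (by omega), hx (by omega), hx (by omega)⟩
      · obtain ⟨a1, a2, a3, a4⟩ := vj i hi
        simp only [a1, a2, a3]; exact ⟨hx (by omega), hx (by omega), hx (by omega)⟩
    · have hik := hmem hp
      rcases Nat.eq_zero_or_pos i with rfl | hi
      · simp only [u01, u02, u03]; exact ⟨hx (by omega), hx (by omega), hx (by omega)⟩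
      · obtain ⟨a1, a2, a3, a4⟩ := uj i hi
        simp only [a1, a2, a3]; exact ⟨hx (by omega), hx (by omega), hx (by omega)⟩
  · rintro ⟨i, _ | _⟩ hp
    · have hik := hmem hp
      rcases Nat.eq_zero_or_pos i with rfl | hi
      · simp only [v03, v04, hxs]
        rw [dD _ (by omega)]; exact hD4
      · obtain ⟨a1, a2, a3, a4⟩ := vj i hi
        simp only [a3, a4, hxs]
        exact le_trans (hC2 i (Finset.mem_range.2 hik)).2.2 (dge _)
    · have hik := hmem hp
      rcases Nat.eq_zero_or_pos i with rfl | hi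
      · simp only [u03, u04, hxs]
        rw [dD _ (by omega)]; exact hD5
      · obtain ⟨a1, a2, a3, a4⟩ := uj i hi
        simp only [a3, a4, hxs]
        exact le_trans (hC2 i (Finset.mem_range.2 hik)).2.1 (dge _)
  · rintro ⟨i, β⟩ hp ⟨j, γ⟩ hq hpq
    have hik := hmem hp
    have hjk := hmem hq
    have hnn : nu (i, β) ≠ nu (j, γ) := by
      rcases Nat.eq_zero_or_pos i with rfl | hi <;> rcases Nat.eq_zero_or_pos j with rfl | hj <;>
        cases β <;> cases γ
      all_goals first
        | exact absurd rfl hpq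
        | skip
      · rw [v03, u03]; omega
      · rw [v03, u03]; omega
      · rw [v03, (vj j hj).2.2.1]; omega
      · rw [v03, (uj j hj).2.2.1]; omega
      · rw [u03, (vj j hj).2.2.1]; omega
      · rw [u03, (uj j hj).2.2.1]; omega
      · rw [v03, (vj i hi).2.2.1]; omega
      · rw [u03, (vj i hi).2.2.1]; omega
      · rw [v03, (uj i hi).2.2.1]; omega
      · rw [u03, (uj i hi).2.2.1]; omega
      · rw [(vj i hi).2.2.1, (vj j hj).2.2.1]
        intro e; apply hpq; congr 1; omega
      · rw [(vj i hi).2.2.1, (uj j hj).2.2.1]; omega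
      · rw [(vj j hj).2.2.1, (uj i hi).2.2.1]; omega
      · rw [(uj i hi).2.2.1, (uj j hj).2.2.1]
        intro e; apply hpq; congr 1; omega
    exact pt_null hx (by omega)
  · rintro ⟨i, β⟩ hp ⟨j, γ⟩ hq hpq
    have hik := hmem hp
    have hjk := hmem hq
    by_cases g1 : ((i, β) : ℕ × Bool) = (0, true)
    · -- root segment meets nothing
      left
      rw [g1]
      apply pt_null hx
      rw [u03]
      have hne : ((j, γ) : ℕ × Bool) ≠ (0, true) := fun e => hpq (g1.trans e.symm)
      cases γ
      · rcases Nat.eq_zero_or_pos j with rfl | hj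
        · rw [v01, v02]; omega
        · rw [(vj j hj).1, (vj j hj).2.1]; omega
      · have hj : 1 ≤ j := by
          rcases Nat.eq_zero_or_pos j with rfl | hj
          · exact absurd rfl hne
          · exact hj
        rw [(uj j hj).1, (uj j hj).2.1]; omega
    by_cases h1 : ((i, β) : ℕ × Bool) = (0, false)
    · by_cases g2 : ((j, γ) : ℕ × Bool) = (0, true)
      · right
        rw [h1, g2, v04, u04]
        exact hs2'
      · left
        rw [h1]
        have hne : ((j, γ) : ℕ × Bool) ≠ (0, false) := fun e => hpq (h1.trans e.symm)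
        have hj : 1 ≤ j := by
          rcases Nat.eq_zero_or_pos j with rfl | hj
          · cases γ
            · exact absurd rfl hne
            · exact absurd rfl g2
          · exact hj
        apply pt_null hx
        rw [v03]
        cases γ
        · rw [(vj j hj).1, (vj j hj).2.1]; omega
        · rw [(uj j hj).1, (uj j hj).2.1]; omega
    have hi : 1 ≤ i := by
      rcases Nat.eq_zero_or_pos i with rfl | hi
      · cases β
        · exact absurd rfl h1
        · exact absurd rfl g1
      · exact hi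
    by_cases g2 : ((j, γ) : ℕ × Bool) = (0, true)
    · right
      rw [g2, u04]
      cases β
      · rw [(vj i hi).2.2.2]; exact (hs3 i (Finset.mem_range.2 hik)).2.2
      · rw [(uj i hi).2.2.2]; exact (hs3 i (Finset.mem_range.2 hik)).2.1
    by_cases h2 : ((j, γ) : ℕ × Bool) = (0, false)
    · right
      rw [h2, v04]
      cases β
      · rw [(vj i hi).2.2.2]; exact (hU3 i (Finset.mem_range.2 hik)).2.2
      · rw [(uj i hi).2.2.2]; exact (hU3 i (Finset.mem_range.2 hik)).2.1
    have hj : 1 ≤ j := by
      rcases Nat.eq_zero_or_pos j with rfl | hj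
      · cases γ
        · exact absurd rfl h2
        · exact absurd rfl g2
      · exact hj
    cases β
    · left
      apply pt_null hx
      cases γ
      · have hij : i ≠ j := fun e => hpq (by rw [e])
        rw [(vj i hi).2.2.1, (vj j hj).1, (vj j hj).2.1]
        omega
      · rw [(vj i hi).2.2.1, (uj j hj).1, (uj j hj).2.1]
        omega
    · cases γ
      · right
        rw [(uj i hi).2.2.2, (vj j hj).2.2.2]
        exact (hT1 i (Finset.mem_range.2 hik)).2
      · left
        have hij : i ≠ j := fun e => hpq (by rw [e])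
        apply pt_null hx
        rw [(uj i hi).2.2.1, (uj j hj).1, (uj j hj).2.1]
        omega

end Pool.Agent.R231.TG
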